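import Pool.Agent.Lib.MP_f2fe2b_co.Num5

set_option autoImplicit false

namespace Pool.Agent.Lib.MP_f2fe2b_co

open Finset

variable {α : Type} [DecidableEq α]

/-- a laminar family of nonempty sets in which every non-singleton splits into two members -/
structure Hier (T : Finset (Finset α)) : Prop where
  ne : ∀ A ∈ T, A.Nonempty
  lam : ∀ A ∈ T, ∀ B ∈ T, A ⊆ B ∨ B ⊆ A ∨ Disjoint A B
  split : ∀ A ∈ T, 2 ≤ A.card → ∃ B ∈ T, ∃ D ∈ T, Disjoint B D ∧ B ∪ D = A

/-- sibling clusters have almost equal sizes -/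
def EvenH (T : Finset (Finset α)) : Prop :=
  ∀ B ∈ T, ∀ D ∈ T, Disjoint B D → B ∪ D ∈ T → B.card ≤ D.card + 1

/-- the tree induced on `L` is even -/
def bal (T : Finset (Finset α)) (L : Finset α) : Prop :=
  ∀ B ∈ T, ∀ D ∈ T, Disjoint B D → B ∪ D ∈ T → (B ∩ L).Nonempty → (D ∩ L).Nonempty →
    (B ∩ L).card ≤ (D ∩ L).card + 1

lemma Hier.sub_of_meet {T : Finset (Finset α)} (h : Hier T) {B P Q : Finset α} (hB : B ∈ T)
    (hP : P ∈ T) (hPQ : Disjoint P Q) {x y : α} (hx : x ∈ P) (hxB : x ∈ B) (hy : y ∈ Q)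
    (hyB : y ∈ B) : P ⊆ B := by
  rcases h.lam P hP B hB with h1 | h1 | h1
  · exact h1
  · exact absurd hy (disjoint_left.1 hPQ (h1 hyB))
  · exact absurd hxB (disjoint_left.1 h1 hx)

lemma Hier.sib {T : Finset (Finset α)} (h : Hier T) {B D P Q : Finset α} (hB : B ∈ T)
    (hQ : Q ∈ T) (hBD : Disjoint B D) (hPQ : Disjoint P Q) (hU : P ∪ Q ∈ T)
    {x y : α} (hx : x ∈ P) (hxB : x ∈ B) (hy : y ∈ Q) (hyD : y ∈ D) : B ⊆ P := by
  have h1 : B ⊆ P ∪ Q :=
    h.sub_of_meet hU hB hBD hxB (mem_union_left _ hx) hyD (mem_union_right _ hy)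
  intro z hz
  rcases mem_union.1 (h1 hz) with h2 | h2
  · exact h2
  · have := h.sub_of_meet hQ hB hBD hz h2 hyD hy
    exact absurd (this hxB) (disjoint_left.1 hPQ hx)

lemma Hier.sub_cases {T : Finset (Finset α)} (h : Hier T) {B D C : Finset α} (hB : B ∈ T)
    (hD : D ∈ T) (hC : C ∈ T) (hsub : C ⊆ B ∪ D) : C ⊆ B ∨ C ⊆ D ∨ C = B ∪ D := by
  rcases h.lam C hC B hB with h1 | h1 | h1
  · exact Or.inl h1
  · rcases h.lam C hC D hD with h2 | h2 | h2
    · exact Or.inr (Or.inl h2)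
    · exact Or.inr (Or.inr (Subset.antisymm hsub (union_subset h1 h2)))
    · left
      intro z hz
      rcases mem_union.1 (hsub hz) with h3 | h3
      · exact h3
      · exact absurd h3 (disjoint_left.1 h2 hz)
  · right; left
    intro z hz
    rcases mem_union.1 (hsub hz) with h3 | h3
    · exact absurd h3 (disjoint_left.1 h1 hz)
    · exact h3

lemma Hier.evenH {T : Finset (Finset α)} (h : Hier T)
    (he : ∀ A ∈ T, ∀ B ∈ T, B ⊂ A → (∀ D ∈ T, B ⊆ D → D ⊆ A → D = B ∨ D = A) →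
      A.card ≤ 2 * B.card + 1 ∧ 2 * B.card ≤ A.card + 1) : EvenH T := by
  intro B hB D hD hBD hU
  obtain ⟨x, hx⟩ := h.ne B hB
  obtain ⟨y, hy⟩ := h.ne D hD
  have h1 : B ⊂ B ∪ D := by
    refine ⟨subset_union_left, fun hc => ?_⟩
    exact disjoint_left.1 hBD (hc (mem_union_right _ hy)) hy
  have := (he _ hU B hB h1 (by
    intro C hC h2 h3
    rcases h.sub_cases hB hD hC h3 with h4 | h4 | h4
    · exact Or.inl (Subset.antisymm h4 h2)
    · exact absurd (h4 (h2 hx)) (disjoint_left.1 hBD hx)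
    · exact Or.inr h4)).2
  rw [card_union_of_disjoint hBD] at this
  omega

lemma inter_union_of_sub {P B D L1 L2 : Finset α} (hP : P ⊆ B) (hBD : Disjoint B D)
    (h2 : L2 ⊆ D) : P ∩ (L1 ∪ L2) = P ∩ L1 := by
  ext z
  simp only [mem_inter, mem_union]
  constructor
  · rintro ⟨h3, h4 | h4⟩
    · exact ⟨h3, h4⟩
    · exact absurd (h2 h4) (disjoint_left.1 hBD (hP h3))
  · rintro ⟨h3, h4⟩; exact ⟨h3, Or.inl h4⟩

lemma inter_union_of_sup {P Q L1 L2 : Finset α} (h1 : L1 ⊆ P) (h2 : L2 ⊆ Q)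
    (hPQ : Disjoint P Q) : P ∩ (L1 ∪ L2) = L1 := by
  rw [inter_union_of_sub (Subset.refl P) hPQ h2]
  exact inter_eq_right.2 h1

lemma Hier.bal_left {T : Finset (Finset α)} (h : Hier T) {B D L1 L2 : Finset α} (hB : B ∈ T)
    (hBD : Disjoint B D) (h1 : L1 ⊆ B) (h2 : L2 ⊆ D) (hb : bal T (L1 ∪ L2)) : bal T L1 := by
  intro P hP Q hQ hPQ hU ⟨x, hx⟩ ⟨y, hy⟩
  rw [mem_inter] at hx hy
  have s1 : P ⊆ B := h.sub_of_meet hB hP hPQ hx.1 (h1 hx.2) hy.1 (h1 hy.2)
  have s2 : Q ⊆ B := h.sub_of_meet hB hQ hPQ.symm hy.1 (h1 hy.2) hx.1 (h1 hx.2)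
  have := hb P hP Q hQ hPQ hU
  rw [inter_union_of_sub s1 hBD h2, inter_union_of_sub s2 hBD h2] at this
  exact this ⟨x, mem_inter.2 hx⟩ ⟨y, mem_inter.2 hy⟩

lemma Hier.bal_union {T : Finset (Finset α)} (h : Hier T) {B D L1 L2 : Finset α} (hB : B ∈ T)
    (hD : D ∈ T) (hBD : Disjoint B D) (hU : B ∪ D ∈ T) (h1 : L1 ⊆ B) (h2 : L2 ⊆ D)
    (n1 : L1.Nonempty) (n2 : L2.Nonempty) :
    bal T (L1 ∪ L2) ↔ bal T L1 ∧ bal T L2 ∧ L1.card ≤ L2.card + 1 ∧ L2.card ≤ L1.card + 1 := by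
  constructor
  · intro hb
    refine ⟨h.bal_left hB hBD h1 h2 hb, h.bal_left hD hBD.symm h2 h1 (by rwa [union_comm]), ?_, ?_⟩
    · have := hb B hB D hD hBD hU
      rw [inter_union_of_sup h1 h2 hBD, union_comm L1, inter_union_of_sup h2 h1 hBD.symm] at this
      exact this n1 n2
    · have := hb D hD B hB hBD.symm (by rwa [union_comm])
      rw [inter_union_of_sup h1 h2 hBD, union_comm L1, inter_union_of_sup h2 h1 hBD.symm] at this
      exact this n2 n1
  · rintro ⟨b1, b2, c1, c2⟩ P hP Q hQ hPQ hPU ⟨x, hx⟩ ⟨y, hy⟩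
    rw [mem_inter, mem_union] at hx hy
    obtain ⟨hxP, hx | hx⟩ := hx <;> obtain ⟨hyQ, hy | hy⟩ := hy
    · have s1 : P ⊆ B := h.sub_of_meet hB hP hPQ hxP (h1 hx) hyQ (h1 hy)
      have s2 : Q ⊆ B := h.sub_of_meet hB hQ hPQ.symm hyQ (h1 hy) hxP (h1 hx)
      rw [inter_union_of_sub s1 hBD h2, inter_union_of_sub s2 hBD h2]
      exact b1 P hP Q hQ hPQ hPU ⟨x, mem_inter.2 ⟨hxP, hx⟩⟩ ⟨y, mem_inter.2 ⟨hyQ, hy⟩⟩
    · have s1 : B ⊆ P := h.sib hB hQ hBD hPQ hPU hxP (h1 hx) hyQ (h2 hy)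
      have s2 : D ⊆ Q := h.sib hD hP hBD.symm hPQ.symm (by rwa [union_comm]) hyQ (h2 hy) hxP (h1 hx)
      rw [inter_union_of_sup (h1.trans s1) (h2.trans s2) hPQ, union_comm L1,
        inter_union_of_sup (h2.trans s2) (h1.trans s1) hPQ.symm]
      exact c1
    · have s1 : D ⊆ P := h.sib hD hQ hBD.symm hPQ hPU hxP (h2 hx) hyQ (h1 hy)
      have s2 : B ⊆ Q := h.sib hB hP hBD hPQ.symm (by rwa [union_comm]) hyQ (h1 hy) hxP (h2 hx)
      rw [inter_union_of_sup (h1.trans s2) (h2.trans s1) hPQ.symm, union_comm L1,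
        inter_union_of_sup (h2.trans s1) (h1.trans s2) hPQ]
      exact c2
    · have s1 : P ⊆ D := h.sub_of_meet hD hP hPQ hxP (h2 hx) hyQ (h2 hy)
      have s2 : Q ⊆ D := h.sub_of_meet hD hQ hPQ.symm hyQ (h2 hy) hxP (h2 hx)
      rw [union_comm L1, inter_union_of_sub s1 hBD.symm h1, inter_union_of_sub s2 hBD.symm h1]
      exact b2 P hP Q hQ hPQ hPU ⟨x, mem_inter.2 ⟨hxP, hx⟩⟩ ⟨y, mem_inter.2 ⟨hyQ, hy⟩⟩

open Classical in
/-- indicator that `L` induces the even tree with `k` leaves -/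
noncomputable def ind (T : Finset (Finset α)) (L : Finset α) (k : ℕ) : ℝ :=
  if L.Nonempty ∧ L.card = k ∧ bal T L then 1 else 0

/-- number of subsets of `A` inducing the even tree with `k` leaves -/
noncomputable def cnt (T : Finset (Finset α)) (A : Finset α) (k : ℕ) : ℝ :=
  ∑ L ∈ A.powerset, ind T L k

lemma ind_empty (T : Finset (Finset α)) : ind T ∅ = fun _ => 0 := by
  funext k; simp [ind]

lemma ind_neg {T : Finset (Finset α)} {L : Finset α} (h : ¬ bal T L) :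
    ind T L = fun _ => 0 := by
  funext k; simp [ind, h]

lemma ind_pos {T : Finset (Finset α)} {L : Finset α} (h : bal T L) (hn : L.Nonempty) :
    ind T L = fun k => if L.card = k then 1 else 0 := by
  funext k; simp [ind, h, hn]

lemma Bf_zero_left (y : ℕ → ℝ) (k : ℕ) : Bf (fun _ => 0) y k = 0 := by
  unfold Bf; simp

lemma Bf_zero_right (y : ℕ → ℝ) (k : ℕ) : Bf y (fun _ => 0) k = 0 := by
  unfold Bf; simp

lemma Hier.ind_union {T : Finset (Finset α)} (h : Hier T) {B D L1 L2 : Finset α} (hB : B ∈ T)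
    (hD : D ∈ T) (hBD : Disjoint B D) (hU : B ∪ D ∈ T) (h1 : L1 ⊆ B) (h2 : L2 ⊆ D) (k : ℕ) :
    ind T (L1 ∪ L2) k = (if L2 = ∅ then ind T L1 k else 0) + (if L1 = ∅ then ind T L2 k else 0)
      + Bf (ind T L1) (ind T L2) k := by
  by_cases e1 : L1 = ∅
  · subst e1
    simp [ind_empty, Bf_zero_left]
  by_cases e2 : L2 = ∅
  · subst e2
    simp [ind_empty, Bf_zero_right]
  have n1 : L1.Nonempty := nonempty_iff_ne_empty.2 e1
  have n2 : L2.Nonempty := nonempty_iff_ne_empty.2 e2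
  have hc : (L1 ∪ L2).card = L1.card + L2.card :=
    card_union_of_disjoint (disjoint_of_subset_left h1 (disjoint_of_subset_right h2 hBD))
  have nU : (L1 ∪ L2).Nonempty := n1.mono subset_union_left
  rw [if_neg e1, if_neg e2, zero_add, zero_add]
  have hb := h.bal_union hB hD hBD hU h1 h2 n1 n2
  by_cases b1 : bal T L1
  swap
  · rw [ind_neg b1, ind_neg (fun hh => b1 (hb.1 hh).1), Bf_zero_left]
  by_cases b2 : bal T L2
  swap
  · rw [ind_neg b2, ind_neg (fun hh => b2 (hb.1 hh).2.1), Bf_zero_right]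
  by_cases b3 : L1.card ≤ L2.card + 1 ∧ L2.card ≤ L1.card + 1
  · rw [ind_pos (hb.2 ⟨b1, b2, b3⟩) nU, ind_pos b1 n1, ind_pos b2 n2, hc]
    obtain ⟨j, rfl | rfl⟩ := parity k
    · rw [Bf_even]
      beta_reduce
      split_ifs <;> first | omega | simp
    · rw [Bf_odd]
      beta_reduce
      split_ifs <;> first | omega | simp
  · rw [ind_neg (fun hh => b3 (hb.1 hh).2.2), ind_pos b1 n1, ind_pos b2 n2]
    obtain ⟨j, rfl | rfl⟩ := parity k
    · rw [Bf_even]
      beta_reduce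
      split_ifs <;> first | omega | simp
    · rw [Bf_odd]
      beta_reduce
      split_ifs <;> first | omega | simp

lemma sum_powerset_union {B D : Finset α} (hBD : Disjoint B D) (f : Finset α → ℝ) :
    ∑ L ∈ (B ∪ D).powerset, f L = ∑ L1 ∈ B.powerset, ∑ L2 ∈ D.powerset, f (L1 ∪ L2) := by
  rw [← sum_product']
  symm
  refine sum_nbij' (fun p => p.1 ∪ p.2) (fun L => (B ∩ L, D ∩ L)) ?_ ?_ ?_ ?_ ?_
  · rintro ⟨L1, L2⟩ hp
    simp only [mem_product, mem_powerset] at hp ⊢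
    exact union_subset_union hp.1 hp.2
  · intro L _
    simp only [mem_product, mem_powerset]
    exact ⟨inter_subset_left, inter_subset_left⟩
  · rintro ⟨L1, L2⟩ hp
    simp only [mem_product, mem_powerset] at hp
    simp only [Prod.mk.injEq]
    exact ⟨inter_union_of_sup hp.1 hp.2 hBD, by
      rw [union_comm]; exact inter_union_of_sup hp.2 hp.1 hBD.symm⟩
  · intro L hL
    simp only [mem_powerset] at hL
    simp only
    rw [← union_inter_distrib_right]
    exact inter_eq_right.2 hL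
  · intro p _; rfl

lemma sum_Bf {ι κ : Type} (s : Finset ι) (t : Finset κ) (x : ι → ℕ → ℝ) (y : κ → ℕ → ℝ) (k : ℕ) :
    ∑ i ∈ s, ∑ j ∈ t, Bf (x i) (y j) k =
      Bf (fun p => ∑ i ∈ s, x i p) (fun p => ∑ j ∈ t, y j p) k := by
  obtain ⟨j, rfl | rfl⟩ := parity k
  · simp only [Bf_even, sum_mul_sum]
  · simp only [Bf_odd, sum_mul_sum, sum_add_distrib]

lemma Hier.cnt_union {T : Finset (Finset α)} (h : Hier T) {B D : Finset α} (hB : B ∈ T)
    (hD : D ∈ T) (hBD : Disjoint B D) (hU : B ∪ D ∈ T) :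
    cnt T (B ∪ D) = Ff (cnt T B) (cnt T D) := by
  funext k
  unfold Ff
  have e1 : cnt T (B ∪ D) k = ∑ L1 ∈ B.powerset, ∑ L2 ∈ D.powerset,
      ((if L2 = ∅ then ind T L1 k else 0) + (if L1 = ∅ then ind T L2 k else 0)
      + Bf (ind T L1) (ind T L2) k) := by
    unfold cnt
    rw [sum_powerset_union hBD]
    refine sum_congr rfl fun L1 h1 => sum_congr rfl fun L2 h2 => ?_
    exact h.ind_union hB hD hBD hU (mem_powerset.1 h1) (mem_powerset.1 h2) k
  rw [e1]
  simp only [sum_add_distrib]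
  rw [sum_Bf]
  congr 1
  congr 1
  · simp [cnt]
  · rw [sum_comm]; simp [cnt]

lemma cnt_nonneg (T : Finset (Finset α)) (A : Finset α) (k : ℕ) : 0 ≤ cnt T A k := by
  refine sum_nonneg fun L _ => ?_
  unfold ind
  split_ifs <;> norm_num

lemma cnt_singleton (T : Finset (Finset α)) (a : α) : cnt T {a} = e 1 := by
  funext k
  have hb : bal T {a} := by
    intro P _ Q _ hPQ _ ⟨x, hx⟩ ⟨y, hy⟩
    rw [mem_inter, mem_singleton] at hx hy
    exact absurd (hy.2 ▸ hy.1) (disjoint_left.1 hPQ (hx.2 ▸ hx.1))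
  have : ({a} : Finset α).powerset = {∅, {a}} := by
    ext L; simp [subset_singleton_iff]
  unfold cnt
  rw [this, sum_pair (singleton_ne_empty a).symm, ind_empty, e_one]
  simp [ind, hb, eq_comm]

lemma Hier.cnt_le {T : Finset (Finset α)} (h : Hier T) (n : ℕ) :
    ∀ A ∈ T, A.card = n → ∀ k, cnt T A k ≤ e n k := by
  induction n using Nat.strong_induction_on with
  | _ n ih =>
    intro A hA hn k
    have := (h.ne A hA).card_pos
    by_cases h1 : A.card = 1
    · obtain ⟨a, rfl⟩ := card_eq_one.1 h1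
      rw [cnt_singleton, ← hn, h1]
    obtain ⟨B, hB, D, hD, hBD, rfl⟩ := h.split A hA (by omega)
    have p1 := (h.ne B hB).card_pos
    have p2 := (h.ne D hD).card_pos
    rw [card_union_of_disjoint hBD] at hn
    rw [h.cnt_union hB hD hBD hA, ← hn]
    exact (Ff_mono (cnt_nonneg _ _) (cnt_nonneg _ _) (ih _ (by omega) B hB rfl)
      (ih _ (by omega) D hD rfl) k).trans (main_num _ _ _)

lemma Hier.cnt_eq {T : Finset (Finset α)} (h : Hier T) (he : EvenH T) (n : ℕ) :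
    ∀ A ∈ T, A.card = n → cnt T A = e n := by
  induction n using Nat.strong_induction_on with
  | _ n ih =>
    intro A hA hn
    have := (h.ne A hA).card_pos
    by_cases h1 : A.card = 1
    · obtain ⟨a, rfl⟩ := card_eq_one.1 h1
      rw [cnt_singleton, ← hn, h1]
    obtain ⟨B, hB, D, hD, hBD, rfl⟩ := h.split A hA (by omega)
    have p1 := (h.ne B hB).card_pos
    have p2 := (h.ne D hD).card_pos
    have c1 := he B hB D hD hBD hA
    have c2 := he D hD B hB hBD.symm (by rwa [union_comm])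
    rw [card_union_of_disjoint hBD] at hn
    rw [h.cnt_union hB hD hBD hA, ih _ (by omega) B hB rfl, ih _ (by omega) D hD rfl, e_rec n]
    by_cases hc : B.card = n / 2
    · rw [hc, show D.card = (n + 1) / 2 by omega]
    · rw [show B.card = (n + 1) / 2 by omega, show D.card = n / 2 by omega, Ff_comm]

end Pool.Agent.Lib.MP_f2fe2b_co
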