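import Pool.Agent.Lib.MP_f2fe2b_co.Comb1

set_option autoImplicit false

namespace Pool.Agent.Lib.MP_f2fe2b_co

open Finset

variable {α β : Type} [DecidableEq α] [DecidableEq β]

lemma glue {T : Finset (Finset α)} {F : Finset (Finset β)} (hT : Hier T) (hF : Hier F)
    {L B D : Finset α} {G1 G2 : Finset β} (hB : B ∈ T) (hD : D ∈ T) (hBD : Disjoint B D)
    (hU : B ∪ D ∈ T) (h1 : G1 ∈ F) (h2 : G2 ∈ F) (h12 : Disjoint G1 G2) (hG : G1 ∪ G2 ∈ F)
    (f1 f2 : β → α) (i1 : Set.InjOn f1 G1) (i2 : Set.InjOn f2 G2)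
    (m1 : G1.image f1 = B ∩ L) (m2 : G2.image f2 = D ∩ L)
    (c1 : ∀ P ⊆ G1, (P ∈ F ↔ P.Nonempty ∧ ∃ C ∈ T, P.image f1 = C ∩ L))
    (c2 : ∀ P ⊆ G2, (P ∈ F ↔ P.Nonempty ∧ ∃ C ∈ T, P.image f2 = C ∩ L)) :
    ∃ f : β → α, Set.InjOn f (G1 ∪ G2 : Finset β) ∧ (G1 ∪ G2).image f = (B ∪ D) ∩ L ∧
      ∀ P ⊆ G1 ∪ G2, (P ∈ F ↔ P.Nonempty ∧ ∃ C ∈ T, P.image f = C ∩ L) := by
  set f : β → α := fun x => if x ∈ G1 then f1 x else f2 x with hf
  have a1 : ∀ x ∈ G1, f x = f1 x := fun x hx => by simp [hf, hx]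
  have a2 : ∀ x ∈ G2, f x = f2 x := fun x hx => by
    have : x ∉ G1 := fun hc => disjoint_left.1 h12 hc hx
    simp [hf, this]
  have r1 : ∀ x ∈ G1, f x ∈ B := fun x hx => by
    rw [a1 x hx]
    have : f1 x ∈ B ∩ L := m1 ▸ mem_image_of_mem f1 hx
    exact (mem_inter.1 this).1
  have r2 : ∀ x ∈ G2, f x ∈ D := fun x hx => by
    rw [a2 x hx]
    have : f2 x ∈ D ∩ L := m2 ▸ mem_image_of_mem f2 hx
    exact (mem_inter.1 this).1
  have im1 : ∀ P ⊆ G1, P.image f = P.image f1 := fun P hP =>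
    image_congr fun x hx => a1 x (hP hx)
  have im2 : ∀ P ⊆ G2, P.image f = P.image f2 := fun P hP =>
    image_congr fun x hx => a2 x (hP hx)
  have inj : Set.InjOn f (G1 ∪ G2 : Finset β) := by
    intro x hx y hy hxy
    rw [mem_coe, mem_union] at hx hy
    rcases hx with hx | hx <;> rcases hy with hy | hy
    · exact i1 hx hy (by rw [← a1 x hx, ← a1 y hy, hxy])
    · exact absurd (hxy ▸ r2 y hy) (disjoint_left.1 hBD (r1 x hx))
    · exact absurd (hxy ▸ r2 x hx) (disjoint_left.1 hBD (r1 y hy))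
    · exact i2 hx hy (by rw [← a2 x hx, ← a2 y hy, hxy])
  have imU : (G1 ∪ G2).image f = (B ∪ D) ∩ L := by
    rw [image_union, im1 G1 (Subset.refl _), im2 G2 (Subset.refl _), m1, m2,
      union_inter_distrib_right]
  refine ⟨f, inj, imU, fun P hP => ⟨fun hPF => ?_, ?_⟩⟩
  · rcases hF.sub_cases h1 h2 hPF hP with h | h | h
    · rw [im1 P h]; exact (c1 P h).1 hPF
    · rw [im2 P h]; exact (c2 P h).1 hPF
    · exact ⟨hF.ne P hPF, B ∪ D, hU, by rw [h, imU]⟩
  · rintro ⟨hne, C, hC, hPC⟩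
    by_cases s1 : P ⊆ G1
    · exact (c1 P s1).2 ⟨hne, C, hC, by rw [← im1 P s1, hPC]⟩
    by_cases s2 : P ⊆ G2
    · exact (c2 P s2).2 ⟨hne, C, hC, by rw [← im2 P s2, hPC]⟩
    obtain ⟨x, hxP, hx⟩ := not_subset.1 s1
    obtain ⟨y, hyP, hy⟩ := not_subset.1 s2
    have hx2 : x ∈ G2 := (mem_union.1 (hP hxP)).resolve_left hx
    have hy1 : y ∈ G1 := (mem_union.1 (hP hyP)).resolve_right hy
    have fx : f x ∈ C := (mem_inter.1 (hPC ▸ mem_image_of_mem f hxP : f x ∈ C ∩ L)).1
    have fy : f y ∈ C := (mem_inter.1 (hPC ▸ mem_image_of_mem f hyP : f y ∈ C ∩ L)).1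
    have t1 : B ⊆ C := hT.sub_of_meet hC hB hBD (r1 y hy1) fy (r2 x hx2) fx
    have t2 : D ⊆ C := hT.sub_of_meet hC hD hBD.symm (r2 x hx2) fx (r1 y hy1) fy
    have : G1 ∪ G2 ⊆ P := by
      intro z hz
      have q1 : f z ∈ (B ∪ D) ∩ L := imU ▸ mem_image_of_mem f hz
      have q2 : f z ∈ P.image f := by
        rw [hPC]
        exact inter_subset_inter_right (union_subset t1 t2) q1
      obtain ⟨w, hw, hwz⟩ := mem_image.1 q2
      have := inj (mem_coe.2 (hP hw)) (mem_coe.2 hz) hwz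
      exact this ▸ hw
    rw [Subset.antisymm hP this]
    exact hG

lemma iso_of_bal {T : Finset (Finset α)} {F : Finset (Finset β)} (hT : Hier T) (hF : Hier F)
    (he : EvenH F) {L : Finset α} (hb : bal T L) (n : ℕ) :
    ∀ A ∈ T, A.card = n → ∀ G ∈ F, G.card = (A ∩ L).card →
      ∃ f : β → α, Set.InjOn f G ∧ G.image f = A ∩ L ∧
        ∀ P ⊆ G, (P ∈ F ↔ P.Nonempty ∧ ∃ C ∈ T, P.image f = C ∩ L) := by
  induction n using Nat.strong_induction_on with
  | _ n ih =>
    intro A hA hn G hG hc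
    have gp := (hF.ne G hG).card_pos
    by_cases g1 : G.card = 1
    · obtain ⟨g, rfl⟩ := card_eq_one.1 g1
      obtain ⟨a, ha⟩ := card_eq_one.1 (hc ▸ g1 : (A ∩ L).card = 1)
      refine ⟨fun _ => a, ?_, by rw [ha, image_singleton], fun P hP => ?_⟩
      · intro x hx y hy _
        rw [mem_coe, mem_singleton] at hx hy
        rw [hx, hy]
      · rcases subset_singleton_iff.1 hP with rfl | rfl
        · constructor
          · intro h; exact absurd (hF.ne _ h) not_nonempty_empty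
          · rintro ⟨h, -⟩; exact absurd h not_nonempty_empty
        · exact ⟨fun _ => ⟨singleton_nonempty _, A, hA, by rw [ha, image_singleton]⟩, fun _ => hG⟩
    have cle : (A ∩ L).card ≤ A.card := card_le_card inter_subset_left
    obtain ⟨B, hB, D, hD, hBD, rfl⟩ := hT.split A hA (by omega)
    obtain ⟨G1, h1, G2, h2, h12, rfl⟩ := hF.split G hG (by omega)
    have p1 := (hT.ne B hB).card_pos
    have p2 := (hT.ne D hD).card_pos
    have cU := card_union_of_disjoint hBD
    by_cases n2 : (D ∩ L).Nonempty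
    swap
    · have e1 : (B ∪ D) ∩ L = B ∩ L := by
        rw [union_inter_distrib_right, not_nonempty_iff_eq_empty.1 n2, union_empty]
      rw [e1] at hc ⊢
      exact ih _ (by omega) B hB rfl _ hG hc
    by_cases n1 : (B ∩ L).Nonempty
    swap
    · have e1 : (B ∪ D) ∩ L = D ∩ L := by
        rw [union_inter_distrib_right, not_nonempty_iff_eq_empty.1 n1, empty_union]
      rw [e1] at hc ⊢
      exact ih _ (by omega) D hD rfl _ hG hc
    have b1 := hb B hB D hD hBD hA n1 n2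
    have b2 := hb D hD B hB hBD.symm (by rwa [union_comm]) n2 n1
    have b3 := he G1 h1 G2 h2 h12 hG
    have b4 := he G2 h2 G1 h1 h12.symm (by rwa [union_comm])
    have hc' := hc
    rw [card_union_of_disjoint h12, union_inter_distrib_right, card_union_of_disjoint
      (disjoint_of_subset_left inter_subset_left
        (disjoint_of_subset_right inter_subset_left hBD))] at hc'
    by_cases hq : G1.card = (B ∩ L).card
    · obtain ⟨f1, i1, m1, c1⟩ := ih _ (by omega) B hB rfl G1 h1 hq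
      obtain ⟨f2, i2, m2, c2⟩ := ih _ (by omega) D hD rfl G2 h2 (by omega)
      exact glue hT hF hB hD hBD hA h1 h2 h12 hG f1 f2 i1 i2 m1 m2 c1 c2
    · obtain ⟨f1, i1, m1, c1⟩ := ih _ (by omega) B hB rfl G2 h2 (by omega)
      obtain ⟨f2, i2, m2, c2⟩ := ih _ (by omega) D hD rfl G1 h1 (by omega)
      rw [union_comm G1 G2] at hG ⊢
      exact glue hT hF hB hD hBD hA h2 h1 h12.symm hG f1 f2 i1 i2 m1 m2 c1 c2

lemma bal_of_iso [Fintype β] {T : Finset (Finset α)} {F : Finset (Finset β)} (he : EvenH F)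
    {L : Finset α} (f : β → α) (hf : Function.Injective f) (hL : univ.image f = L)
    (hc : ∀ P : Finset β, P ∈ F ↔ (P.Nonempty ∧ ∃ A ∈ T, P.image f = A ∩ L)) : bal T L := by
  have pre : ∀ C : Finset α, (univ.filter (fun x => f x ∈ C)).image f = C ∩ L := by
    intro C
    ext z
    simp only [mem_image, mem_filter, mem_univ, true_and, mem_inter, ← hL]
    constructor
    · rintro ⟨x, hx, rfl⟩; exact ⟨hx, x, rfl⟩
    · rintro ⟨hz, x, rfl⟩; exact ⟨x, hz, rfl⟩
  have mem : ∀ C ∈ T, (C ∩ L).Nonempty → univ.filter (fun x => f x ∈ C) ∈ F := by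
    intro C hC hne
    refine (hc _).2 ⟨?_, C, hC, pre C⟩
    rw [← pre C] at hne
    exact image_nonempty.1 hne
  intro B hB D hD hBD hU n1 n2
  have hd : Disjoint (univ.filter (fun x => f x ∈ B)) (univ.filter (fun x => f x ∈ D)) := by
    rw [disjoint_left]
    intro x hx hy
    exact disjoint_left.1 hBD (mem_filter.1 hx).2 (mem_filter.1 hy).2
  have hu : univ.filter (fun x => f x ∈ B) ∪ univ.filter (fun x => f x ∈ D) =
      univ.filter (fun x => f x ∈ B ∪ D) := by
    ext x; simp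
  have := he _ (mem B hB n1) _ (mem D hD n2) hd (by
    rw [hu]
    exact mem _ hU (n1.mono (inter_subset_inter_right subset_union_left)))
  rw [← pre B, ← pre D, card_image_of_injective _ hf, card_image_of_injective _ hf]
  exact this

lemma ncard_eq_cnt {k n : ℕ} (hk : 1 ≤ k) {F : Finset (Finset (Fin k))}
    {T : Finset (Finset (Fin n))} (hF : Hier F) (he : EvenH F) (uF : univ ∈ F) (hT : Hier T)
    (uT : univ ∈ T) :
    (({L : Finset (Fin n) | ∃ f : Fin k → Fin n, Function.Injective f ∧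
          Finset.univ.image f = L ∧
          ∀ B : Finset (Fin k), B ∈ F ↔ (B.Nonempty ∧ ∃ A ∈ T, B.image f = A ∩ L)}.ncard : ℕ) : ℝ)
      = cnt T univ k := by
  classical
  have e1 : {L : Finset (Fin n) | ∃ f : Fin k → Fin n, Function.Injective f ∧
          Finset.univ.image f = L ∧
          ∀ B : Finset (Fin k), B ∈ F ↔ (B.Nonempty ∧ ∃ A ∈ T, B.image f = A ∩ L)} =
      ((univ : Finset (Fin n)).powerset.filter
        (fun L => L.Nonempty ∧ L.card = k ∧ bal T L) : Finset (Finset (Fin n))) := by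
    ext L
    simp only [Set.mem_ofPred_eq, coe_filter, mem_powerset, subset_univ, true_and]
    constructor
    · rintro ⟨f, hf, hL, hc⟩
      have c : L.card = k := by
        rw [← hL, card_image_of_injective _ hf, card_univ, Fintype.card_fin]
      exact ⟨card_pos.1 (by omega), c, bal_of_iso he f hf hL hc⟩
    · rintro ⟨-, c, hb⟩
      obtain ⟨f, i, m, hc⟩ := iso_of_bal hT hF he hb _ univ uT rfl univ uF
        (by rw [univ_inter, c, card_univ, Fintype.card_fin])
      refine ⟨f, ?_, by rw [m, univ_inter], fun B => hc B (subset_univ _)⟩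
      intro x y hxy
      exact i (mem_coe.2 (mem_univ x)) (mem_coe.2 (mem_univ y)) hxy
  rw [e1, Set.ncard_coe_finset, card_filter]
  unfold cnt ind
  push_cast
  refine sum_congr rfl fun L _ => ?_
  congr

end Pool.Agent.Lib.MP_f2fe2b_co
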