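import Mathlib

set_option autoImplicit false

namespace Pool.Agent.Lib.MP_f2fe2b_co

/-- the cross term: copies of the even tree with `k` leaves using both branches -/
noncomputable def Bf (x y : ℕ → ℝ) (k : ℕ) : ℝ :=
  if k % 2 = 0 then x (k / 2) * y (k / 2)
  else x (k / 2 + 1) * y (k / 2) + x (k / 2) * y (k / 2 + 1)

/-- the count vector of a tree whose branches have count vectors `x` and `y` -/
noncomputable def Ff (x y : ℕ → ℝ) (k : ℕ) : ℝ := x k + y k + Bf x y k

/-- the count vector of the even tree with `n` leaves -/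
noncomputable def e : ℕ → ℕ → ℝ
  | 0 => fun _ => 0
  | 1 => fun k => if k = 1 then 1 else 0
  | (n + 2) => Ff (e ((n + 2) / 2)) (e ((n + 3) / 2))
  decreasing_by all_goals omega

lemma Bf_even (x y : ℕ → ℝ) (j : ℕ) : Bf x y (2 * j) = x j * y j := by
  unfold Bf
  have h1 : 2 * j % 2 = 0 := by omega
  have h2 : 2 * j / 2 = j := by omega
  simp [h1, h2]

lemma Bf_odd (x y : ℕ → ℝ) (j : ℕ) :
    Bf x y (2 * j + 1) = x (j + 1) * y j + x j * y (j + 1) := by
  unfold Bf
  have h1 : (2 * j + 1) % 2 = 1 := by omega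
  have h2 : (2 * j + 1) / 2 = j := by omega
  simp [h1, h2]

lemma parity (k : ℕ) : ∃ j, k = 2 * j ∨ k = 2 * j + 1 := ⟨k / 2, by omega⟩

lemma Bf_comm (x y : ℕ → ℝ) (k : ℕ) : Bf x y k = Bf y x k := by
  obtain ⟨j, rfl | rfl⟩ := parity k
  · rw [Bf_even, Bf_even]; ring
  · rw [Bf_odd, Bf_odd]; ring

lemma Ff_comm (x y : ℕ → ℝ) : Ff x y = Ff y x := by
  funext k; unfold Ff; rw [Bf_comm]; ring

lemma Bf_nonneg {x y : ℕ → ℝ} (hx : ∀ i, 0 ≤ x i) (hy : ∀ i, 0 ≤ y i) (k : ℕ) :
    0 ≤ Bf x y k := by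
  obtain ⟨j, rfl | rfl⟩ := parity k
  · rw [Bf_even]; exact mul_nonneg (hx _) (hy _)
  · rw [Bf_odd]; exact add_nonneg (mul_nonneg (hx _) (hy _)) (mul_nonneg (hx _) (hy _))

lemma Bf_mono {x y x' y' : ℕ → ℝ} (hx : ∀ i, 0 ≤ x i) (hy : ∀ i, 0 ≤ y i)
    (hxx : ∀ i, x i ≤ x' i) (hyy : ∀ i, y i ≤ y' i) (k : ℕ) :
    Bf x y k ≤ Bf x' y' k := by
  have hm : ∀ a b, x a * y b ≤ x' a * y' b := fun a b =>
    mul_le_mul (hxx a) (hyy b) (hy b) ((hx a).trans (hxx a))
  obtain ⟨j, rfl | rfl⟩ := parity k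
  · rw [Bf_even, Bf_even]; exact hm _ _
  · rw [Bf_odd, Bf_odd]; exact add_le_add (hm _ _) (hm _ _)

lemma Ff_nonneg {x y : ℕ → ℝ} (hx : ∀ i, 0 ≤ x i) (hy : ∀ i, 0 ≤ y i) (k : ℕ) :
    0 ≤ Ff x y k := add_nonneg (add_nonneg (hx k) (hy k)) (Bf_nonneg hx hy k)

lemma Ff_mono {x y x' y' : ℕ → ℝ} (hx : ∀ i, 0 ≤ x i) (hy : ∀ i, 0 ≤ y i)
    (hxx : ∀ i, x i ≤ x' i) (hyy : ∀ i, y i ≤ y' i) (k : ℕ) :
    Ff x y k ≤ Ff x' y' k :=
  add_le_add (add_le_add (hxx k) (hyy k)) (Bf_mono hx hy hxx hyy k)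

lemma e_zero : e 0 = fun _ => 0 := by rw [e]

lemma e_one : e 1 = fun k => if k = 1 then 1 else 0 := by rw [e]

lemma Ff_zero_left (y : ℕ → ℝ) : Ff (fun _ => 0) y = y := by
  funext k
  obtain ⟨j, rfl | rfl⟩ := parity k
  · simp [Ff, Bf_even]
  · simp [Ff, Bf_odd]

lemma e_rec (n : ℕ) : e n = Ff (e (n / 2)) (e ((n + 1) / 2)) := by
  match n with
  | 0 => simp [e_zero, Ff_zero_left]
  | 1 => simp [e_zero, Ff_zero_left]
  | (n + 2) => rw [e]

lemma e_even (m : ℕ) : e (2 * m) = Ff (e m) (e m) := by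
  rw [e_rec]
  have h1 : 2 * m / 2 = m := by omega
  have h2 : (2 * m + 1) / 2 = m := by omega
  rw [h1, h2]

lemma e_odd (m : ℕ) : e (2 * m + 1) = Ff (e m) (e (m + 1)) := by
  rw [e_rec]
  have h1 : (2 * m + 1) / 2 = m := by omega
  have h2 : (2 * m + 1 + 1) / 2 = m + 1 := by omega
  rw [h1, h2]

lemma e_even' (m : ℕ) : e (2 * m + 2) = Ff (e (m + 1)) (e (m + 1)) := by
  rw [← e_even]; rfl

lemma e_nonneg (n : ℕ) : ∀ k, 0 ≤ e n k := by
  induction n using Nat.strong_induction_on with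
  | _ n ih =>
    match n with
    | 0 => intro k; simp [e_zero]
    | 1 => intro k; simp only [e_one]; split_ifs <;> norm_num
    | (n + 2) =>
      intro k
      rw [e_rec]
      exact Ff_nonneg (ih _ (by omega)) (ih _ (by omega)) k

lemma e_at_zero (n : ℕ) : e n 0 = 0 := by
  induction n using Nat.strong_induction_on with
  | _ n ih =>
    match n with
    | 0 => simp [e_zero]
    | 1 => simp [e_one]
    | (n + 2) =>
      rw [e_rec]
      have := Bf_even (e ((n + 2) / 2)) (e ((n + 2 + 1) / 2)) 0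
      simp only [Ff, mul_zero] at this ⊢
      rw [this, ih _ (by omega), ih _ (by omega)]; simp

lemma e_eq_zero (n : ℕ) : ∀ k, n < k → e n k = 0 := by
  induction n using Nat.strong_induction_on with
  | _ n ih =>
    match n with
    | 0 => intro k _; simp [e_zero]
    | 1 => intro k hk; simp only [e_one]; rw [if_neg (by omega)]
    | (n + 2) =>
      intro k hk
      rw [e_rec]
      have h1 := ih ((n + 2) / 2) (by omega)
      have h2 := ih ((n + 2 + 1) / 2) (by omega)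
      unfold Ff
      rw [h1 k (by omega), h2 k (by omega)]
      obtain ⟨j, rfl | rfl⟩ := parity k
      · rw [Bf_even, h1 j (by omega)]; simp
      · rw [Bf_odd, h1 (j + 1) (by omega)]
        by_cases hj : (n + 2) / 2 < j
        · rw [h1 j hj]; simp
        · rw [h2 (j + 1) (by omega)]; simp

lemma e_pos (n : ℕ) : ∀ k, 1 ≤ k → k ≤ n → 0 < e n k := by
  induction n using Nat.strong_induction_on with
  | _ n ih =>
    match n with
    | 0 => intro k _ _; omega
    | 1 => intro k h1 h2; simp only [e_one]; rw [if_pos (by omega)]; norm_num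
    | (n + 2) =>
      intro k hk1 hk2
      rw [e_rec]
      have h1 := ih ((n + 2) / 2) (by omega)
      have h2 := ih ((n + 2 + 1) / 2) (by omega)
      have n1 := e_nonneg ((n + 2) / 2)
      have n2 := e_nonneg ((n + 2 + 1) / 2)
      unfold Ff
      obtain ⟨j, rfl | rfl⟩ := parity k
      · rw [Bf_even]
        have := mul_pos (h1 j (by omega) (by omega)) (h2 j (by omega) (by omega))
        have := n1 (2 * j)
        have := n2 (2 * j)
        linarith
      · rw [Bf_odd]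
        have a1 := n1 (2 * j + 1)
        have a2 := n2 (2 * j + 1)
        have a3 := mul_nonneg (n1 (j + 1)) (n2 j)
        have a4 := mul_nonneg (n1 j) (n2 (j + 1))
        by_cases hj : j = 0
        · subst hj
          have := h1 1 le_rfl (by omega)
          simp only [mul_zero, zero_add] at *
          linarith
        · have := mul_pos (h1 j (by omega) (by omega)) (h2 (j + 1) (by omega) (by omega))
          linarith

lemma e_mono_succ (n : ℕ) : ∀ k, e n k ≤ e (n + 1) k := by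
  induction n using Nat.strong_induction_on with
  | _ n ih =>
    obtain ⟨m, rfl | rfl⟩ := parity n
    · intro k
      by_cases hm : m = 0
      · subst hm; simpa [e_zero] using e_nonneg 1 k
      rw [e_even, e_odd]
      exact Ff_mono (e_nonneg _) (e_nonneg _) (fun _ => le_rfl) (ih m (by omega)) k
    · intro k
      rw [e_odd, show 2 * m + 1 + 1 = 2 * m + 2 from rfl, e_even']
      exact Ff_mono (e_nonneg _) (e_nonneg _) (ih m (by omega)) (fun _ => le_rfl) k

lemma e_mono {a b : ℕ} (h : a ≤ b) (k : ℕ) : e a k ≤ e b k := by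
  induction b, h using Nat.le_induction with
  | base => exact le_rfl
  | succ b _ ih => exact ih.trans (e_mono_succ b k)

lemma e_closed (n : ℕ) :
    e n 1 = n ∧ e n 2 = n * (n - 1) / 2 ∧ e n 3 = n * (n - 1) * (n - 2) / 6 := by
  induction n using Nat.strong_induction_on with
  | _ n ih =>
    have key : ∀ a b : ℕ, (e a 1 = a ∧ e a 2 = a * (a - 1) / 2 ∧ e a 3 = a * (a - 1) * (a - 2) / 6) →
        (e b 1 = b ∧ e b 2 = b * (b - 1) / 2 ∧ e b 3 = b * (b - 1) * (b - 2) / 6) →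
        (Ff (e a) (e b) 1 = (a + b : ℝ) ∧ Ff (e a) (e b) 2 = (a + b : ℝ) * (a + b - 1) / 2 ∧
          Ff (e a) (e b) 3 = (a + b : ℝ) * (a + b - 1) * (a + b - 2) / 6) := by
      rintro a b ⟨a1, a2, a3⟩ ⟨b1, b2, b3⟩
      have h1 := Bf_odd (e a) (e b) 0
      have h2 := Bf_even (e a) (e b) 1
      have h3 := Bf_odd (e a) (e b) 1
      norm_num at h1 h2 h3
      unfold Ff
      rw [h1, h2, h3, e_at_zero, e_at_zero, a1, a2, a3, b1, b2, b3]
      refine ⟨by ring, by ring, by ring⟩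
    match n with
    | 0 => simp [e_zero]
    | 1 => simp [e_one]
    | (n + 2) =>
      have := key _ _ (ih ((n + 2) / 2) (by omega)) (ih ((n + 2 + 1) / 2) (by omega))
      rw [← e_rec] at this
      have hs : (((n + 2) / 2 : ℕ) : ℝ) + (((n + 2 + 1) / 2 : ℕ) : ℝ) = ((n + 2 : ℕ) : ℝ) := by
        rw [← Nat.cast_add]; congr 1; omega
      rw [hs] at this
      exact this

/-- the rearrangement of the four grandchildren -/
lemma swap (a1 a2 b1 b2 : ℕ → ℝ)
    (h1 : ∀ i, a1 i ≤ b1 i) (h2 : ∀ i, a2 i ≤ b2 i)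
    (t1 : ∀ p r, p ≤ r → a1 r * b1 p ≤ b1 r * a1 p)
    (t2 : ∀ p r, p ≤ r → a2 r * b2 p ≤ b2 r * a2 p)
    (z1 : a1 0 = 0) (z2 : a2 0 = 0) (z3 : b1 0 = 0) (z4 : b2 0 = 0) (k : ℕ) :
    Ff (Ff a1 a2) (Ff b1 b2) k ≤ Ff (Ff a1 b2) (Ff a2 b1) k := by
  have P : ∀ p q r, p ≤ r → 0 ≤ (b1 r * a1 p - a1 r * b1 p) * (b2 q - a2 q) := fun p q r h =>
    mul_nonneg (sub_nonneg.2 (t1 p r h)) (sub_nonneg.2 (h2 q))
  have Q : ∀ p q r, p ≤ r → 0 ≤ (b2 r * a2 p - a2 r * b2 p) * (b1 q - a1 q) := fun p q r h =>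
    mul_nonneg (sub_nonneg.2 (t2 p r h)) (sub_nonneg.2 (h1 q))
  obtain ⟨i, rfl | rfl⟩ := parity k
  · obtain ⟨j, rfl | rfl⟩ := parity i
    · simp only [Ff, Bf_even]
      have := P j j (2 * j) (by omega)
      have := Q j j (2 * j) (by omega)
      nlinarith
    · simp only [Ff, Bf_even, Bf_odd]
      have := P j (j + 1) (2 * j + 1) (by omega)
      have := Q j (j + 1) (2 * j + 1) (by omega)
      have := P (j + 1) j (2 * j + 1) (by omega)
      have := Q (j + 1) j (2 * j + 1) (by omega)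
      have := mul_nonneg (sub_nonneg.2 (t1 j (j + 1) (by omega)))
        (sub_nonneg.2 (t2 j (j + 1) (by omega)))
      linarith
  · obtain ⟨j, rfl | rfl⟩ := parity i
    · by_cases hj : j = 0
      · subst hj
        have e1 : ∀ x y : ℕ → ℝ, Bf x y 0 = x 0 * y 0 := fun x y => Bf_even x y 0
        have e2 : ∀ x y : ℕ → ℝ, Bf x y 1 = x 1 * y 0 + x 0 * y 1 := fun x y => Bf_odd x y 0
        simp [Ff, e1, e2, z1, z2, z3, z4]
        linarith
      simp only [Ff, Bf_even, Bf_odd]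
      have := P j j (2 * j + 1) (by omega)
      have := Q j j (2 * j + 1) (by omega)
      have := P j (j + 1) (2 * j) (by omega)
      have := Q j (j + 1) (2 * j) (by omega)
      have := P (j + 1) j (2 * j) (by omega)
      have := Q (j + 1) j (2 * j) (by omega)
      linarith
    · have e1 : 2 * j + 1 + 1 = 2 * (j + 1) := by ring
      simp only [Ff, Bf_even, Bf_odd, e1]
      have := P (j + 1) (j + 1) (2 * j + 1) (by omega)
      have := Q (j + 1) (j + 1) (2 * j + 1) (by omega)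
      have := P j (j + 1) (2 * (j + 1)) (by omega)
      have := Q j (j + 1) (2 * (j + 1)) (by omega)
      have := P (j + 1) j (2 * (j + 1)) (by omega)
      have := Q (j + 1) j (2 * (j + 1)) (by omega)
      linarith

end Pool.Agent.Lib.MP_f2fe2b_co
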