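import Pool.Agent.Lib.MP_f2fe2b_co.Num1

set_option autoImplicit false

namespace Pool.Agent.Lib.MP_f2fe2b_co

/-- consecutive total positivity at size `n` -/
def TPw (n : ℕ) : Prop := ∀ k, 1 ≤ k → e n (k + 1) * e (n + 1) k ≤ e (n + 1) (k + 1) * e n k

lemma TPw.chain {n : ℕ} (h : TPw n) (p r : ℕ) (hpr : p ≤ r) :
    e n r * e (n + 1) p ≤ e (n + 1) r * e n p := by
  by_cases hp : p = 0
  · subst hp; simp [e_at_zero]
  induction r, hpr using Nat.le_induction with
  | base => rw [mul_comm]
  | succ r hr ih =>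
    by_cases hn : n < r + 1
    · rw [e_eq_zero n _ hn, zero_mul]; exact mul_nonneg (e_nonneg _ _) (e_nonneg _ _)
    have p1 : 0 < e n r := e_pos n r (by omega) (by omega)
    have p2 : 0 < e (n + 1) r := e_pos (n + 1) r (by omega) (by omega)
    have h1 := h r (by omega)
    have h3 := mul_le_mul h1 ih (mul_nonneg (e_nonneg _ _) (e_nonneg _ _))
      (mul_nonneg (e_nonneg _ _) (e_nonneg _ _))
    have : (e n (r + 1) * e (n + 1) p) * (e n r * e (n + 1) r) ≤
        (e (n + 1) (r + 1) * e n p) * (e n r * e (n + 1) r) := by linarith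
    exact le_of_mul_le_mul_right this (mul_pos p1 p2)

lemma TP_chain {a b : ℕ} (hab : a ≤ b) (h : ∀ i < b, TPw i) (p r : ℕ) (hpr : p ≤ r) :
    e a r * e b p ≤ e b r * e a p := by
  by_cases hp : p = 0
  · subst hp; simp [e_at_zero]
  induction b, hab using Nat.le_induction with
  | base => rw [mul_comm]
  | succ b hb ih =>
    by_cases hn : a < r
    · rw [e_eq_zero a _ hn, zero_mul]; exact mul_nonneg (e_nonneg _ _) (e_nonneg _ _)
    have p1 : 0 < e b r := e_pos b r (by omega) (by omega)
    have p2 : 0 < e b p := e_pos b p (by omega) (by omega)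
    have h1 := (h b (by omega)).chain p r hpr
    have h2 := ih (fun i hi => h i (by omega))
    have h3 := mul_le_mul h1 h2 (mul_nonneg (e_nonneg _ _) (e_nonneg _ _))
      (mul_nonneg (e_nonneg _ _) (e_nonneg _ _))
    have : (e a r * e (b + 1) p) * (e b r * e b p) ≤
        (e (b + 1) r * e a p) * (e b r * e b p) := by linarith
    exact le_of_mul_le_mul_right this (mul_pos p1 p2)

/-- the extremal inequality for all splits of total size at most `N` -/
def Main (N : ℕ) : Prop := ∀ a b, a + b ≤ N → ∀ k, Ff (e a) (e b) k ≤ e (a + b) k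

lemma main_of_TP (n : ℕ) (h : ∀ i < n, TPw i) : Main (2 * n) := by
  have key : ∀ s, s ≤ 2 * n → ∀ a b, a + b = s → ∀ k, Ff (e a) (e b) k ≤ e (a + b) k := by
    intro s
    induction s using Nat.strong_induction_on with
    | _ s ih =>
      intro hs
      have main : ∀ a b, a ≤ b → a + b = s → ∀ k, Ff (e a) (e b) k ≤ e (a + b) k := by
        intro a b hab hsum k
        by_cases ha : a = 0
        · subst ha; simp [e_zero, Ff_zero_left]
        have e1 : e a = Ff (e ((a + 1) / 2)) (e (a / 2)) := by rw [Ff_comm, ← e_rec]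
        have e2 : e b = Ff (e ((b + 1) / 2)) (e (b / 2)) := by rw [Ff_comm, ← e_rec]
        have hsw := swap (e ((a + 1) / 2)) (e (a / 2)) (e ((b + 1) / 2)) (e (b / 2))
          (fun i => e_mono (by omega) i) (fun i => e_mono (by omega) i)
          (fun p r hpr => TP_chain (by omega) (fun i hi => h i (by omega)) p r hpr)
          (fun p r hpr => TP_chain (by omega) (fun i hi => h i (by omega)) p r hpr)
          (e_at_zero _) (e_at_zero _) (e_at_zero _) (e_at_zero _) k
        rw [← e1, ← e2] at hsw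
        refine hsw.trans ?_
        have i1 := ih ((a + 1) / 2 + b / 2) (by omega) (by omega) _ _ rfl
        have i2 := ih (a / 2 + (b + 1) / 2) (by omega) (by omega) _ _ rfl
        refine (Ff_mono (Ff_nonneg (e_nonneg _) (e_nonneg _))
          (Ff_nonneg (e_nonneg _) (e_nonneg _)) i1 i2 k).trans (le_of_eq ?_)
        rw [e_rec (a + b)]
        by_cases hc : (a + 1) / 2 + b / 2 = (a + b) / 2
        · have hd : a / 2 + (b + 1) / 2 = (a + b + 1) / 2 := by omega
          rw [hc, hd]
        · have hc' : (a + 1) / 2 + b / 2 = (a + b + 1) / 2 := by omega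
          have hd : a / 2 + (b + 1) / 2 = (a + b) / 2 := by omega
          rw [hc', hd, Ff_comm]
      intro a b hsum k
      rcases le_total a b with hab | hab
      · exact main a b hab hsum k
      · rw [Ff_comm, add_comm]; exact main b a hab (by omega) k
  intro a b hab k
  exact key (a + b) hab a b rfl k

lemma del_step (x x' y y' : ℕ → ℝ) (a b : ℝ) (hx : ∀ i, 0 ≤ x i) (hy : ∀ i, 0 ≤ y i)
    (h1 : ∀ i : ℕ, (a - i) * x i ≤ a * x' i) (h2 : ∀ i : ℕ, (b - i) * y i ≤ b * y' i) (k : ℕ) :
    (a + b - k) * Ff x y k ≤ a * Ff x' y k + b * Ff x y' k := by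
  have P : ∀ p q : ℕ, (a - p) * x p * y q ≤ a * x' p * y q := fun p q =>
    mul_le_mul_of_nonneg_right (h1 p) (hy q)
  have Q : ∀ p q : ℕ, (b - q) * y q * x p ≤ b * y' q * x p := fun p q =>
    mul_le_mul_of_nonneg_right (h2 q) (hx p)
  have a1 := h1 k
  have a2 := h2 k
  obtain ⟨j, rfl | rfl⟩ := parity k
  · simp only [Ff, Bf_even]
    have := P j j
    have := Q j j
    push_cast at *
    linarith
  · simp only [Ff, Bf_odd]
    have := P j (j + 1)
    have := Q j (j + 1)
    have := P (j + 1) j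
    have := Q (j + 1) j
    push_cast at *
    linarith

/-- the density of copies does not increase -/
lemma dens {N : ℕ} (h : Main N) (n : ℕ) (hn : n ≤ N) :
    ∀ k : ℕ, ((n + 1 : ℝ) - k) * e (n + 1) k ≤ (n + 1 : ℝ) * e n k := by
  induction n using Nat.strong_induction_on with
  | _ n ih =>
    intro k
    by_cases h0 : n = 0
    · subst h0
      simp only [e_zero, e_one, zero_add]
      split_ifs with hk
      · subst hk; simp
      · simp
    obtain ⟨a, b, hab, ha, hb⟩ : ∃ a b, a + 1 + (b + 1) = n + 1 ∧ (n + 1) / 2 = a + 1 ∧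
        (n + 1 + 1) / 2 = b + 1 := ⟨(n + 1) / 2 - 1, (n + 1 + 1) / 2 - 1, by omega⟩
    have i1 := ih a (by omega) (by omega)
    have i2 := ih b (by omega) (by omega)
    have := del_step (e (a + 1)) (e a) (e (b + 1)) (e b) (a + 1) (b + 1) (e_nonneg _) (e_nonneg _)
      i1 i2 k
    have m1 := h a (b + 1) (by omega) k
    have m2 := h (a + 1) b (by omega) k
    rw [show a + (b + 1) = n by omega] at m1
    rw [show a + 1 + b = n by omega] at m2
    have hc : (a + 1 : ℝ) + (b + 1) = n + 1 := by exact_mod_cast hab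
    rw [e_rec (n + 1), ha, hb, ← hc]
    have p1 : (0 : ℝ) ≤ a + 1 := by positivity
    have p2 : (0 : ℝ) ≤ b + 1 := by positivity
    have := mul_le_mul_of_nonneg_left m1 p1
    have := mul_le_mul_of_nonneg_left m2 p2
    linarith

lemma dbl_step (x x' y y' : ℕ → ℝ) (hx : ∀ i, 0 ≤ x i) (hy : ∀ i, 0 ≤ y i)
    (h1 : ∀ i : ℕ, 2 ^ i * x i ≤ x' i) (h2 : ∀ i : ℕ, 2 ^ i * y i ≤ y' i) (k : ℕ) :
    2 ^ k * Ff x y k ≤ Ff x' y' k := by
  have P : ∀ p q : ℕ, (2 ^ p * x p) * (2 ^ q * y q) ≤ x' p * y' q := fun p q =>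
    mul_le_mul (h1 p) (h2 q) (mul_nonneg (by positivity) (hy q))
      ((mul_nonneg (by positivity) (hx p)).trans (h1 p))
  have a1 := h1 k
  have a2 := h2 k
  obtain ⟨j, rfl | rfl⟩ := parity k
  · simp only [Ff, Bf_even]
    have := P j j
    have e1 : (2 : ℝ) ^ (2 * j) = 2 ^ j * 2 ^ j := by ring
    rw [e1] at a1 a2 ⊢
    linarith
  · simp only [Ff, Bf_odd]
    have := P j (j + 1)
    have := P (j + 1) j
    have e1 : (2 : ℝ) ^ (2 * j + 1) = 2 ^ j * 2 ^ (j + 1) := by ring
    rw [e1] at a1 a2 ⊢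
    linarith

/-- doubling the size multiplies the count by at least `2 ^ k` -/
lemma dbl {N : ℕ} (h : Main N) (m : ℕ) (hm : 2 * m ≤ N) :
    ∀ k : ℕ, 2 ^ k * e m k ≤ e (2 * m) k := by
  induction m using Nat.strong_induction_on with
  | _ m ih =>
    intro k
    match m with
    | 0 => simp [e_zero]
    | 1 =>
      simp only [e_one]
      split_ifs with hk
      · subst hk; rw [(e_closed _).1]; norm_num
      · simpa using e_nonneg _ _
    | (m + 2) =>
      have i1 := ih ((m + 2) / 2) (by omega) (by omega)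
      have i2 := ih ((m + 2 + 1) / 2) (by omega) (by omega)
      have := dbl_step _ _ _ _ (e_nonneg _) (e_nonneg _) i1 i2 k
      rw [← e_rec] at this
      refine this.trans ?_
      have m1 := h (2 * ((m + 2) / 2)) (2 * ((m + 2 + 1) / 2)) (by omega) k
      rwa [show 2 * ((m + 2) / 2) + 2 * ((m + 2 + 1) / 2) = 2 * (m + 2) by omega] at m1

end Pool.Agent.Lib.MP_f2fe2b_co
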