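import Pool.Agent.Lib.MP_f2fe2b_co.Num2

set_option autoImplicit false

namespace Pool.Agent.Lib.MP_f2fe2b_co

lemma finA (U V U' V' M M' E E' θ θ' : ℝ) (hU : 0 ≤ U) (hV : 0 ≤ V) (hV' : 0 ≤ V')
    (hM' : 0 < M') (hE : 0 ≤ E) (hE' : 0 ≤ E') (hθ' : 0 ≤ θ') (hθ : θ ≤ 1)
    (h1 : (1 - E) * V ≤ M * U) (h2 : (1 - E') * M' * U' ≤ V') (h3 : M ≤ (1 - θ / 2) * M')
    (h4 : θ' + E + E' ≤ θ / 2) : U' * V ≤ (1 - θ') * (V' * U) := by
  have p1 : 0 < 1 - E := by linarith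
  have p2 : 0 < 1 - E' := by linarith
  have c1 : 1 - θ / 2 ≤ (1 - θ') * ((1 - E) * (1 - E')) := by
    have q1 : 1 - E - E' ≤ (1 - E) * (1 - E') := by nlinarith [mul_nonneg hE hE']
    have q2 : (1 - θ') * (1 - E - E') ≤ (1 - θ') * ((1 - E) * (1 - E')) :=
      mul_le_mul_of_nonneg_left q1 (by linarith)
    nlinarith [mul_nonneg hθ' (add_nonneg hE hE')]
  have s1 : ((1 - E') * M' * U') * ((1 - E) * V) ≤ V' * (M * U) :=
    mul_le_mul h2 h1 (mul_nonneg p1.le hV) hV'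
  have s2 : V' * (M * U) ≤ V' * (((1 - θ / 2) * M') * U) :=
    mul_le_mul_of_nonneg_left (mul_le_mul_of_nonneg_right h3 hU) hV'
  have s3 : (1 - θ / 2) * (M' * (V' * U)) ≤
      ((1 - θ') * ((1 - E) * (1 - E'))) * (M' * (V' * U)) :=
    mul_le_mul_of_nonneg_right c1 (mul_nonneg hM'.le (mul_nonneg hV' hU))
  have : (U' * V) * ((1 - E) * (1 - E') * M') ≤
      ((1 - θ') * (V' * U)) * ((1 - E) * (1 - E') * M') := by linarith
  exact le_of_mul_le_mul_right this (mul_pos (mul_pos p1 p2) hM')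

lemma finB (V W V' W' N E F θ θ' : ℝ) (hV : 0 ≤ V) (hW : 0 ≤ W) (hW' : 0 ≤ W')
    (hE : 0 ≤ E) (hF : 0 ≤ F) (hθ' : 0 ≤ θ') (hθ : θ ≤ 1)
    (h1 : (1 - E) * N * W ≤ V) (h2 : V' ≤ (1 - θ / 2 + F) * N * W')
    (h4 : θ' + E + F ≤ θ / 2) : V' * W ≤ (1 - θ') * (W' * V) := by
  have p1 : 0 < 1 - E := by linarith
  have c1 : 1 - θ / 2 + F ≤ (1 - θ') * (1 - E) := by nlinarith [mul_nonneg hθ' hE]
  have s1 : V' * ((1 - E) * W) ≤ ((1 - θ / 2 + F) * N * W') * ((1 - E) * W) :=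
    mul_le_mul_of_nonneg_right h2 (mul_nonneg p1.le hW)
  have s2 : ((1 - θ / 2 + F) * W') * ((1 - E) * N * W) ≤ ((1 - θ / 2 + F) * W') * V :=
    mul_le_mul_of_nonneg_left h1 (mul_nonneg (by linarith) hW')
  have s3 : (1 - θ / 2 + F) * (W' * V) ≤ ((1 - θ') * (1 - E)) * (W' * V) :=
    mul_le_mul_of_nonneg_right c1 (mul_nonneg hW' hV)
  have : (V' * W) * (1 - E) ≤ ((1 - θ') * (W' * V)) * (1 - E) := by linarith
  exact le_of_mul_le_mul_right this p1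

lemma absA (xk yk xk' yk' P P' M M' t tb μ D k b m1 θ θ' W : ℝ)
    (hm1 : 0 < m1) (hD : 0 < D) (hD2 : D ≤ 2 * m1) (hk : 0 ≤ k) (hb : 0 ≤ b) (hμ : 0 ≤ μ)
    (hxk : 0 ≤ xk) (hxy : xk ≤ yk) (hP : 0 ≤ P) (hP' : 0 ≤ P') (hxk' : 0 ≤ xk')
    (hM : 1 ≤ M) (hM' : 2 * M' = t + tb) (htb : tb ≤ t) (htb1 : 1 ≤ tb)
    (hT : t * xk' ≤ yk') (hAb : (m1 - b) * tb ≤ m1) (hAk : (m1 - k) * yk ≤ m1 * xk)
    (hBy : yk ≤ μ * W) (hA' : D * W ≤ 2 * m1 * (xk + yk + M * P))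
    (hBx : xk' ≤ μ / 2 * (xk' + xk' + P')) (h3 : M ≤ (1 - θ / 2) * M')
    (hθ' : 0 ≤ θ') (hθ : θ ≤ 1) (h4 : θ' + (2 * k + b) * μ / D ≤ θ / 2) :
    (xk' + xk' + P') * (xk + yk + M * P) ≤
      (1 - θ') * ((xk' + yk' + M' * P') * (xk + xk + P)) := by
  set V := xk + yk + M * P with hV
  set U' := xk' + xk' + P' with hU'
  have hV0 : 0 ≤ V := by have := mul_nonneg (by linarith : 0 ≤ M) hP; linarith
  have hU'0 : 0 ≤ U' := by linarith
  have hM'0 : 0 < M' := by linarith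
  have hyk' : 0 ≤ yk' := le_trans (mul_nonneg (by linarith) hxk') hT
  refine finA _ _ _ _ M M' (2 * k * μ / D) (b * μ / D) θ θ' (by linarith) hV0
    (by have := mul_nonneg hM'0.le hP'; linarith) hM'0 (by positivity) (by positivity) hθ' hθ
    ?_ ?_ h3 ?_
  · have d1 : yk - xk ≤ 2 * k * μ / D * V := by
      rw [div_mul_eq_mul_div, le_div_iff₀ hD]
      have q1 : k * yk ≤ k * (μ * W) := mul_le_mul_of_nonneg_left hBy hk
      have q2 : (k * μ) * (D * W) ≤ (k * μ) * (2 * m1 * V) :=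
        mul_le_mul_of_nonneg_left hA' (mul_nonneg hk hμ)
      have q3 : (m1 * (yk - xk)) * D ≤ (k * (μ * W)) * D :=
        mul_le_mul_of_nonneg_right (by linarith) hD.le
      have : m1 * ((yk - xk) * D) ≤ m1 * (2 * k * μ * V) := by linarith
      exact le_of_mul_le_mul_left this hm1
    have d2 : xk ≤ M * xk := le_mul_of_one_le_left hxk hM
    linarith
  · have d1 : xk' * (tb - 1) ≤ b * μ / D * (M' * U') := by
      rw [div_mul_eq_mul_div, le_div_iff₀ hD]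
      have q1 : m1 * (tb - 1) ≤ b * M' := by
        have : b * tb ≤ b * M' := mul_le_mul_of_nonneg_left (by linarith) hb
        linarith
      have q2 : xk' * (m1 * (tb - 1)) ≤ (μ / 2 * U') * (b * M') :=
        mul_le_mul hBx q1 (mul_nonneg hm1.le (by linarith)) (by positivity)
      have q3 : (xk' * (tb - 1)) * D ≤ (xk' * (tb - 1)) * (2 * m1) :=
        mul_le_mul_of_nonneg_left hD2 (mul_nonneg hxk' (by linarith))
      linarith
    have d2 : 2 * M' * xk' = t * xk' + tb * xk' := by rw [hM']; ring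
    linarith
  · have : (2 * k + b) * μ / D = 2 * k * μ / D + b * μ / D := by ring
    linarith

lemma absB (xk yk xk' yk' P P' N N' v sb μ D k b m1 θ θ' : ℝ)
    (hm1 : 0 < m1) (hD : 0 < D) (hk : 0 ≤ k) (hb : 0 ≤ b) (hμ : 0 ≤ μ)
    (hxk : 0 ≤ xk) (hxy : xk ≤ yk) (hP : 0 ≤ P) (hP' : 0 ≤ P') (hyk' : 0 ≤ yk')
    (hN : N ≤ 1) (hND : D ≤ 2 * m1 * N) (hN' : 2 * N' = v + sb)
    (hT : xk' ≤ v * yk') (hAb : m1 - b ≤ m1 * sb) (hAk : (m1 - k) * yk ≤ m1 * xk)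
    (hBy : yk ≤ μ * (yk + yk + P)) (hBy' : yk' ≤ μ / 2 * (yk' + yk' + P'))
    (h3 : N' ≤ (1 - θ / 2) * N)
    (hθ' : 0 ≤ θ') (hθ : θ ≤ 1) (h4 : θ' + (2 * k + b) * μ / D ≤ θ / 2) :
    (xk' + yk' + N' * P') * (yk + yk + P) ≤
      (1 - θ') * ((yk' + yk' + P') * (xk + yk + N * P)) := by
  set W := yk + yk + P with hW
  set W' := yk' + yk' + P' with hW'
  have hN0 : 0 < N := by
    by_contra hc
    have : 2 * m1 * N ≤ 0 := mul_nonpos_of_nonneg_of_nonpos (by linarith) (by linarith)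
    linarith
  have hW0 : 0 ≤ W := by linarith
  have hW'0 : 0 ≤ W' := by linarith
  refine finB _ _ _ _ N (2 * k * μ / D) (b * μ / D) θ θ'
    (by have := mul_nonneg hN0.le hP; linarith) hW0 hW'0 (by positivity) (by positivity) hθ' hθ
    ?_ ?_ ?_
  · have d1 : yk - xk ≤ 2 * k * μ / D * (N * W) := by
      rw [div_mul_eq_mul_div, le_div_iff₀ hD]
      have q1 : k * yk ≤ k * (μ * W) := mul_le_mul_of_nonneg_left hBy hk
      have q2 : (yk - xk) * D ≤ (yk - xk) * (2 * m1 * N) :=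
        mul_le_mul_of_nonneg_left hND (by linarith)
      have q3 : (m1 * (yk - xk)) * N ≤ (k * (μ * W)) * N :=
        mul_le_mul_of_nonneg_right (by linarith) hN0.le
      linarith
    have d2 : N * yk ≤ yk := mul_le_of_le_one_left (by linarith) hN
    linarith
  · have d1 : yk' * (1 - sb) ≤ b * μ / D * (N * W') := by
      rw [div_mul_eq_mul_div, le_div_iff₀ hD]
      have q1 : yk' * (m1 * (1 - sb)) ≤ yk' * b :=
        mul_le_mul_of_nonneg_left (by linarith) hyk'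
      have q2 : yk' * b ≤ (μ / 2 * W') * b := mul_le_mul_of_nonneg_right hBy' hb
      have q3 : ((μ / 2 * W') * b) * D ≤ ((μ / 2 * W') * b) * (2 * m1 * N) :=
        mul_le_mul_of_nonneg_left hND (by positivity)
      have q4 : (yk' * (m1 * (1 - sb))) * D ≤ ((μ / 2 * W') * b) * D :=
        mul_le_mul_of_nonneg_right (q1.trans q2) hD.le
      have : m1 * (yk' * (1 - sb) * D) ≤ m1 * (b * μ * (N * W')) := by linarith
      exact le_of_mul_le_mul_left this hm1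
    have d2 : 2 * N' * yk' = v * yk' + sb * yk' := by rw [hN']; ring
    have d3 : N' * W' ≤ (1 - θ / 2) * N * W' := mul_le_mul_of_nonneg_right h3 hW'0
    have d4 : N' * W' = 2 * N' * yk' + N' * P' := by rw [hW']; ring
    linarith
  · have : (2 * k + b) * μ / D = 2 * k * μ / D + b * μ / D := by ring
    linarith

lemma pow_bound (j : ℕ) (hj : 2 ≤ j) : (10 * j - 5 : ℝ) ≤ 4 * 2 ^ j := by
  induction j, hj using Nat.le_induction with
  | base => norm_num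
  | succ j hj ih =>
    have : (2 : ℝ) ≤ j := by exact_mod_cast hj
    push_cast
    rw [pow_succ]
    linarith

lemma err_bound (m k j : ℕ) (b : ℝ) (hj : 2 ≤ j) (hk : k = 2 * j ∨ k = 2 * j + 1)
    (hkm : k ≤ m + 1) (hb : 2 * b ≤ k + 1) :
    4 / 2 ^ k / (2 * m - 2 : ℝ) + (2 * k + b) * (1 / 2 ^ k) / (2 * m + 2 - k) ≤
      4 / 2 ^ j / (m - 1 : ℝ) / 2 := by
  have hk4 : (4 : ℝ) ≤ k := by exact_mod_cast (by omega : 4 ≤ k)
  have hkm' : (k : ℝ) ≤ m + 1 := by exact_mod_cast hkm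
  have hm : (0 : ℝ) < m - 1 := by linarith
  have hD : (0 : ℝ) < 2 * m + 2 - k := by linarith
  have hp : (5 * k - 5 : ℝ) * 2 ^ j ≤ 4 * 2 ^ k := by
    have := pow_bound j hj
    have p : (0 : ℝ) < 2 ^ j := by positivity
    rcases hk with rfl | rfl
    · have e1 : (2 : ℝ) ^ (2 * j) = 2 ^ j * 2 ^ j := by ring
      rw [e1]; push_cast
      nlinarith
    · have e1 : (2 : ℝ) ^ (2 * j + 1) = 2 * (2 ^ j * 2 ^ j) := by ring
      have : (2 : ℝ) ≤ j := by exact_mod_cast hj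
      rw [e1]; push_cast
      nlinarith
  have h1 : (2 * k + b) / (2 * m + 2 - k) ≤ (5 * k - 9) / (2 * m - 2) := by
    rw [div_le_div_iff₀ hD (by linarith)]
    have q1 : (2 * k + b) * (2 * m - 2) ≤ ((5 * k + 1) / 2) * (2 * m - 2 : ℝ) :=
      mul_le_mul_of_nonneg_right (by linarith) (by linarith)
    nlinarith [mul_nonneg (by linarith : (0 : ℝ) ≤ m + 1 - k) (by linarith : (0 : ℝ) ≤ k - 4)]
  have h2 : (5 * k - 5 : ℝ) / 2 ^ k ≤ 4 / 2 ^ j := by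
    rw [div_le_div_iff₀ (by positivity) (by positivity)]; exact hp
  have e1 : (2 * k + b) * (1 / 2 ^ k) / (2 * m + 2 - k) =
      (2 * k + b) / (2 * m + 2 - k) * (1 / 2 ^ k : ℝ) := by ring
  have h3 : (2 * k + b) / (2 * m + 2 - k) * (1 / 2 ^ k : ℝ) ≤
      (5 * k - 9) / (2 * m - 2) * (1 / 2 ^ k : ℝ) :=
    mul_le_mul_of_nonneg_right h1 (by positivity)
  have e2 : 4 / 2 ^ k / (2 * m - 2 : ℝ) + (5 * k - 9) / (2 * m - 2) * (1 / 2 ^ k : ℝ) =
      (5 * k - 5 : ℝ) / 2 ^ k / (2 * m - 2) := by ring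
  have e3 : 4 / 2 ^ j / (m - 1 : ℝ) / 2 = 4 / 2 ^ j / (2 * m - 2 : ℝ) := by
    field_simp
  have h4 : (5 * k - 5 : ℝ) / 2 ^ k / (2 * m - 2) ≤ 4 / 2 ^ j / (2 * m - 2 : ℝ) :=
    div_le_div_of_nonneg_right h2 (by linarith)
  rw [e1, e3]
  linarith

end Pool.Agent.Lib.MP_f2fe2b_co
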