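import Pool.Agent.Lib.MP_f2fe2b_co.Num3

set_option autoImplicit false

namespace Pool.Agent.Lib.MP_f2fe2b_co

/-- total positivity with a quantitative gap -/
def TPs (n : ℕ) : Prop := ∀ k, 2 ≤ k →
  e n (k + 1) * e (n + 1) k ≤ (1 - 4 / 2 ^ k / (n - 1 : ℝ)) * (e (n + 1) (k + 1) * e n k)

lemma gam_le_one (k n : ℕ) (hk : 2 ≤ k) (hn : 2 ≤ n) : 4 / 2 ^ k / (n - 1 : ℝ) ≤ 1 := by
  have h1 : (4 : ℝ) / 2 ^ k ≤ 1 := by
    rw [div_le_one (by positivity)]
    calc (4 : ℝ) = 2 ^ 2 := by norm_num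
      _ ≤ 2 ^ k := pow_le_pow_right₀ (by norm_num) hk
  have h2 : (2 : ℝ) ≤ n := by exact_mod_cast hn
  rw [div_le_one (by linarith)]
  linarith

lemma TPw_of (n : ℕ) (h : 2 ≤ n → TPs n) : TPw n := by
  intro k hk
  by_cases hn : n < k + 1
  · rw [e_eq_zero n _ hn, zero_mul]; exact mul_nonneg (e_nonneg _ _) (e_nonneg _ _)
  have h2 : (2 : ℝ) ≤ n := by exact_mod_cast (by omega : 2 ≤ n)
  by_cases hk1 : k = 1
  · subst hk1
    rw [(e_closed n).1, (e_closed n).2.1, (e_closed (n + 1)).1, (e_closed (n + 1)).2.1]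
    push_cast
    nlinarith [mul_nonneg (by linarith : (0 : ℝ) ≤ n) (by linarith : (0 : ℝ) ≤ n + 1)]
  · refine (h (by omega) k (by omega)).trans ?_
    refine mul_le_of_le_one_left (mul_nonneg (e_nonneg _ _) (e_nonneg _ _)) ?_
    have : (0 : ℝ) ≤ 4 / 2 ^ k / (n - 1 : ℝ) := div_nonneg (by positivity) (by linarith)
    linarith

lemma exists_mu (m k j : ℕ) (b : ℝ) (hm : 2 ≤ m) (hj : 2 ≤ j) (hk : k = 2 * j ∨ k = 2 * j + 1)
    (hb : 2 * b ≤ k + 1) (hM : Main (2 * m + 2)) :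
    ∃ μ : ℝ, 0 ≤ μ ∧ e (m + 1) k ≤ μ * e (2 * m + 2) k ∧
      e (m + 1) (k + 1) ≤ μ / 2 * e (2 * m + 2) (k + 1) ∧
      e m (k + 1) ≤ μ / 2 * e (2 * m) (k + 1) ∧
      4 / 2 ^ k / (2 * m - 2 : ℝ) + (2 * k + b) * μ / (2 * m + 2 - k) ≤
        4 / 2 ^ j / (m - 1 : ℝ) / 2 := by
  by_cases hkm : k ≤ m + 1
  · have d1 := dbl hM (m + 1) (by omega)
    have d2 := dbl hM m (by omega)
    rw [show 2 * (m + 1) = 2 * m + 2 by ring] at d1
    refine ⟨1 / 2 ^ k, by positivity, ?_, ?_, ?_, err_bound m k j b hj hk hkm hb⟩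
    · rw [one_div, ← div_eq_inv_mul, le_div_iff₀ (by positivity), mul_comm]; exact d1 k
    · have e1 : (1 : ℝ) / 2 ^ k / 2 = (2 ^ (k + 1))⁻¹ := by rw [pow_succ]; field_simp
      rw [e1, ← div_eq_inv_mul, le_div_iff₀ (by positivity), mul_comm]; exact d1 (k + 1)
    · have e1 : (1 : ℝ) / 2 ^ k / 2 = (2 ^ (k + 1))⁻¹ := by rw [pow_succ]; field_simp
      rw [e1, ← div_eq_inv_mul, le_div_iff₀ (by positivity), mul_comm]; exact d2 (k + 1)
  · refine ⟨0, le_rfl, ?_, ?_, ?_, ?_⟩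
    · rw [e_eq_zero _ _ (by omega)]; simp
    · rw [e_eq_zero _ _ (by omega)]; simp
    · rw [e_eq_zero _ _ (by omega)]; simp
    · have h2 : (2 : ℝ) ≤ m := by exact_mod_cast hm
      have e3 : 4 / 2 ^ j / (m - 1 : ℝ) / 2 = 4 / 2 ^ j / (2 * m - 2 : ℝ) := by
        have : (m - 1 : ℝ) ≠ 0 := by linarith
        have : (2 * m - 2 : ℝ) ≠ 0 := by linarith
        field_simp
      rw [e3, mul_zero, zero_div, add_zero]
      refine div_le_div_of_nonneg_right ?_ (by linarith)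
      exact div_le_div_of_nonneg_left (by norm_num) (by positivity)
        (pow_le_pow_right₀ (by norm_num) (by omega))

lemma stepA (m k : ℕ) (hk4 : 4 ≤ k) (hkm : k + 1 ≤ 2 * m) (hs : TPs m) (hM : Main (2 * m + 2)) :
    e (2 * m) (k + 1) * e (2 * m + 1) k ≤
      (1 - 4 / 2 ^ k / (2 * m - 2 : ℝ)) * (e (2 * m + 1) (k + 1) * e (2 * m) k) := by
  have hw : TPw m := TPw_of m (fun _ => hs)
  obtain ⟨j, hk⟩ := parity k
  have hj : 2 ≤ j := by omega
  have hm : 2 ≤ m := by omega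
  have hm' : (2 : ℝ) ≤ m := by exact_mod_cast hm
  have hA := dens hM m (by omega)
  have hA' := dens hM (2 * m + 1) (by omega) k
  have px0 : 0 < e m j := e_pos m j (by omega) (by omega)
  have px1 : 0 < e m (j + 1) := e_pos m (j + 1) (by omega) (by omega)
  obtain ⟨s, hs0⟩ : ∃ s, e (m + 1) j = s * e m j := ⟨e (m + 1) j / e m j, by field_simp⟩
  obtain ⟨t, ht0⟩ : ∃ t, e (m + 1) (j + 1) = t * e m (j + 1) :=
    ⟨e (m + 1) (j + 1) / e m (j + 1), by field_simp⟩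
  have s1 : 1 ≤ s := by
    have := e_mono_succ m j
    rw [hs0] at this
    exact (le_mul_iff_one_le_left px0).1 this
  set θ : ℝ := 4 / 2 ^ j / (m - 1 : ℝ) with hθ
  have θ1 : θ ≤ 1 := gam_le_one j m hj hm
  have θ0 : 0 ≤ θ := div_nonneg (by positivity) (by linarith)
  have st : s ≤ (1 - θ) * t := by
    have := hs j hj
    rw [hs0, ht0] at this
    have h2 : s * (e m j * e m (j + 1)) ≤ ((1 - θ) * t) * (e m j * e m (j + 1)) := by linarith
    exact le_of_mul_le_mul_right h2 (mul_pos px0 px1)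
  have t0 : 0 ≤ t := by
    have := e_nonneg (m + 1) (j + 1)
    rw [ht0] at this
    exact nonneg_of_mul_nonneg_left this px1
  have st' : s ≤ t := by nlinarith [mul_nonneg θ0 t0]
  have hT : t * e m (k + 1) ≤ e (m + 1) (k + 1) := by
    have := hw.chain (j + 1) (k + 1) (by omega)
    rw [ht0] at this
    have h2 : (t * e m (k + 1)) * e m (j + 1) ≤ e (m + 1) (k + 1) * e m (j + 1) := by linarith
    exact le_of_mul_le_mul_right h2 px1
  have hAs : ((m + 1 : ℝ) - j) * s ≤ m + 1 := by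
    have := hA j
    rw [hs0] at this
    have h2 : (((m + 1 : ℝ) - j) * s) * e m j ≤ (m + 1) * e m j := by linarith
    exact le_of_mul_le_mul_right h2 px0
  have hAt : ((m + 1 : ℝ) - (j + 1 : ℕ)) * t ≤ m + 1 := by
    have := hA (j + 1)
    rw [ht0] at this
    have h2 : (((m + 1 : ℝ) - (j + 1 : ℕ)) * t) * e m (j + 1) ≤ (m + 1) * e m (j + 1) := by
      linarith
    exact le_of_mul_le_mul_right h2 px1
  have hkm' : (k : ℝ) + 1 ≤ 2 * m := by exact_mod_cast hkm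
  have θ'0 : 0 ≤ 4 / 2 ^ k / (2 * m - 2 : ℝ) := div_nonneg (by positivity) (by linarith)
  have hk0 : (0 : ℝ) ≤ k := by positivity
  have hA'' : (2 * m + 2 - k : ℝ) * e (2 * m + 2) k ≤ 2 * (m + 1) * e (2 * m + 1) k := by
    push_cast at hA'
    have e1 : 2 * m + 1 + 1 = 2 * m + 2 := rfl
    rw [e1] at hA'
    linarith
  rcases hk with hk | hk
  · obtain ⟨μ, μ0, μ1, -, μ3, μ4⟩ := exists_mu m k j j hm hj (Or.inl hk)
      (by rw [hk]; push_cast; linarith) hM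
    have B1 : Bf (e m) (e (m + 1)) k = s * Bf (e m) (e m) k := by
      rw [hk, Bf_even, Bf_even, hs0]; ring
    have B2 : Bf (e m) (e (m + 1)) (k + 1) = (s + t) / 2 * Bf (e m) (e m) (k + 1) := by
      rw [hk, Bf_odd, Bf_odd, hs0, ht0]; ring
    rw [e_odd] at hA''
    rw [e_even] at μ3
    rw [e_even, e_odd]
    simp only [Ff, B1, B2] at hA'' μ3 ⊢
    exact absA _ _ _ _ _ _ s ((s + t) / 2) t s μ (2 * m + 2 - k) k j (m + 1) θ _
      (e (2 * m + 2) k) (by linarith) (by linarith) (by linarith) hk0 (by positivity) μ0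
      (e_nonneg _ _) (e_mono_succ _ _) (Bf_nonneg (e_nonneg _) (e_nonneg _) _)
      (Bf_nonneg (e_nonneg _) (e_nonneg _) _) (e_nonneg _ _) s1 (by ring) st' s1 hT hAs (hA k)
      μ1 hA'' μ3 (by nlinarith [mul_nonneg θ0 (sub_nonneg.2 st')]) θ'0 θ1 μ4
  · obtain ⟨μ, μ0, μ1, -, μ3, μ4⟩ := exists_mu m k j (j + 1 : ℕ) hm hj (Or.inr hk)
      (by rw [hk]; push_cast; linarith) hM
    have B1 : Bf (e m) (e (m + 1)) k = (s + t) / 2 * Bf (e m) (e m) k := by
      rw [hk, Bf_odd, Bf_odd, hs0, ht0]; ring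
    have B2 : Bf (e m) (e (m + 1)) (k + 1) = t * Bf (e m) (e m) (k + 1) := by
      rw [show k + 1 = 2 * (j + 1) by omega, Bf_even, Bf_even, ht0]; ring
    rw [e_odd] at hA''
    rw [e_even] at μ3
    rw [e_even, e_odd]
    simp only [Ff, B1, B2] at hA'' μ3 ⊢
    exact absA _ _ _ _ _ _ ((s + t) / 2) t t t μ (2 * m + 2 - k) k (j + 1 : ℕ) (m + 1) θ _
      (e (2 * m + 2) k) (by linarith) (by linarith) (by linarith) hk0 (by positivity) μ0
      (e_nonneg _ _) (e_mono_succ _ _) (Bf_nonneg (e_nonneg _) (e_nonneg _) _)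
      (Bf_nonneg (e_nonneg _) (e_nonneg _) _) (e_nonneg _ _) (by linarith) (by ring) le_rfl
      (by linarith) hT hAt (hA k) μ1 hA'' μ3 (by linarith) θ'0 θ1 μ4

lemma stepB (m k : ℕ) (hk4 : 4 ≤ k) (hkm : k ≤ 2 * m) (hs : TPs m) (hM : Main (2 * m + 2)) :
    e (2 * m + 1) (k + 1) * e (2 * m + 2) k ≤
      (1 - 4 / 2 ^ k / (2 * m - 2 : ℝ)) * (e (2 * m + 2) (k + 1) * e (2 * m + 1) k) := by
  have hw : TPw m := TPw_of m (fun _ => hs)
  obtain ⟨j, hk⟩ := parity k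
  have hj : 2 ≤ j := by omega
  have hm : 2 ≤ m := by omega
  have hm' : (2 : ℝ) ≤ m := by exact_mod_cast hm
  have hA := dens hM m (by omega)
  have px0 : 0 < e (m + 1) j := e_pos (m + 1) j (by omega) (by omega)
  have px1 : 0 < e (m + 1) (j + 1) := e_pos (m + 1) (j + 1) (by omega) (by omega)
  obtain ⟨u, hu0⟩ : ∃ u, e m j = u * e (m + 1) j := ⟨e m j / e (m + 1) j, by field_simp⟩
  obtain ⟨v, hv0⟩ : ∃ v, e m (j + 1) = v * e (m + 1) (j + 1) :=
    ⟨e m (j + 1) / e (m + 1) (j + 1), by field_simp⟩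
  have u1 : u ≤ 1 := by
    have := e_mono_succ m j
    rw [hu0] at this
    exact (mul_le_iff_le_one_left px0).1 this
  set θ : ℝ := 4 / 2 ^ j / (m - 1 : ℝ) with hθ
  have θ1 : θ ≤ 1 := gam_le_one j m hj hm
  have θ0 : 0 ≤ θ := div_nonneg (by positivity) (by linarith)
  have uv : v ≤ (1 - θ) * u := by
    have := hs j hj
    rw [hu0, hv0] at this
    have h2 : v * (e (m + 1) j * e (m + 1) (j + 1)) ≤
      ((1 - θ) * u) * (e (m + 1) j * e (m + 1) (j + 1)) := by linarith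
    exact le_of_mul_le_mul_right h2 (mul_pos px0 px1)
  have u0 : 0 ≤ u := by
    have := e_nonneg m j
    rw [hu0] at this
    exact nonneg_of_mul_nonneg_left this px0
  have uv' : v ≤ u := by nlinarith [mul_nonneg θ0 u0]
  have hT : e m (k + 1) ≤ v * e (m + 1) (k + 1) := by
    have := hw.chain (j + 1) (k + 1) (by omega)
    rw [hv0] at this
    have h2 : e m (k + 1) * e (m + 1) (j + 1) ≤ (v * e (m + 1) (k + 1)) * e (m + 1) (j + 1) := by
      linarith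
    exact le_of_mul_le_mul_right h2 px1
  have hAu : ((m + 1 : ℝ) - j) ≤ (m + 1) * u := by
    have := hA j
    rw [hu0] at this
    have h2 : ((m + 1 : ℝ) - j) * e (m + 1) j ≤ ((m + 1) * u) * e (m + 1) j := by linarith
    exact le_of_mul_le_mul_right h2 px0
  have hAv : ((m + 1 : ℝ) - (j + 1 : ℕ)) ≤ (m + 1) * v := by
    have := hA (j + 1)
    rw [hv0] at this
    have h2 : ((m + 1 : ℝ) - (j + 1 : ℕ)) * e (m + 1) (j + 1) ≤
      ((m + 1) * v) * e (m + 1) (j + 1) := by linarith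
    exact le_of_mul_le_mul_right h2 px1
  have hkm' : (k : ℝ) ≤ 2 * m := by exact_mod_cast hkm
  have θ'0 : 0 ≤ 4 / 2 ^ k / (2 * m - 2 : ℝ) := div_nonneg (by positivity) (by linarith)
  have hk0 : (0 : ℝ) ≤ k := by positivity
  rcases hk with hk | hk
  · obtain ⟨μ, μ0, μ1, μ2, -, μ4⟩ := exists_mu m k j j hm hj (Or.inl hk)
      (by rw [hk]; push_cast; linarith) hM
    have B1 : Bf (e m) (e (m + 1)) k = u * Bf (e (m + 1)) (e (m + 1)) k := by
      rw [hk, Bf_even, Bf_even, hu0]; ring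
    have B2 : Bf (e m) (e (m + 1)) (k + 1) =
        (u + v) / 2 * Bf (e (m + 1)) (e (m + 1)) (k + 1) := by
      rw [hk, Bf_odd, Bf_odd, hu0, hv0]; ring
    have hkc : (k : ℝ) = 2 * j := by exact_mod_cast hk
    rw [e_even'] at μ1 μ2
    rw [e_even', e_odd]
    simp only [Ff, B1, B2] at μ1 μ2 ⊢
    exact absB _ _ _ _ _ _ u ((u + v) / 2) v u μ (2 * m + 2 - k) k j (m + 1) θ _
      (by linarith) (by linarith) hk0 (by positivity) μ0
      (e_nonneg _ _) (e_mono_succ _ _) (Bf_nonneg (e_nonneg _) (e_nonneg _) _)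
      (Bf_nonneg (e_nonneg _) (e_nonneg _) _) (e_nonneg _ _) u1 (by linarith) (by ring) hT hAu
      (hA k) μ1 μ2 (by linarith) θ'0 θ1 μ4
  · obtain ⟨μ, μ0, μ1, μ2, -, μ4⟩ := exists_mu m k j (j + 1 : ℕ) hm hj (Or.inr hk)
      (by rw [hk]; push_cast; linarith) hM
    have B1 : Bf (e m) (e (m + 1)) k = (u + v) / 2 * Bf (e (m + 1)) (e (m + 1)) k := by
      rw [hk, Bf_odd, Bf_odd, hu0, hv0]; ring
    have B2 : Bf (e m) (e (m + 1)) (k + 1) = v * Bf (e (m + 1)) (e (m + 1)) (k + 1) := by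
      rw [show k + 1 = 2 * (j + 1) by omega, Bf_even, Bf_even, hv0]; ring
    have hkc : (k : ℝ) = 2 * j + 1 := by exact_mod_cast hk
    rw [e_even'] at μ1 μ2
    rw [e_even', e_odd]
    simp only [Ff, B1, B2] at μ1 μ2 ⊢
    exact absB _ _ _ _ _ _ ((u + v) / 2) v v v μ (2 * m + 2 - k) k (j + 1 : ℕ) (m + 1) θ _
      (by linarith) (by linarith) hk0 (by positivity) μ0
      (e_nonneg _ _) (e_mono_succ _ _) (Bf_nonneg (e_nonneg _) (e_nonneg _) _)
      (Bf_nonneg (e_nonneg _) (e_nonneg _) _) (e_nonneg _ _) (by linarith)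
      (by push_cast at hAv; linarith) (by ring) hT hAv
      (hA k) μ1 μ2 (by nlinarith [mul_nonneg θ0 (sub_nonneg.2 uv')]) θ'0 θ1 μ4

end Pool.Agent.Lib.MP_f2fe2b_co
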