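import Pool.Agent.Lib.MP_f2fe2b_co.Num4

set_option autoImplicit false

namespace Pool.Agent.Lib.MP_f2fe2b_co

lemma four_rec (a b : ℕ) : Ff (e a) (e b) 4 = e a 4 + e b 4 + e a 2 * e b 2 := by
  have := Bf_even (e a) (e b) 2
  simp only [Ff]
  norm_num at this
  rw [this]

lemma four_chain (m : ℕ) (hm : 2 ≤ m) (hw : TPw m) :
    (m + 1 : ℝ) * e m 4 ≤ (m - 1) * e (m + 1) 4 := by
  have := hw.chain 2 4 (by norm_num)
  rw [(e_closed m).2.1, (e_closed (m + 1)).2.1] at this
  push_cast at this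
  have hm' : (2 : ℝ) ≤ m := by exact_mod_cast hm
  have h2 : ((m + 1 : ℝ) * e m 4) * m ≤ ((m - 1) * e (m + 1) 4) * m := by linarith
  exact le_of_mul_le_mul_right h2 (by linarith)

lemma four_dbl {N : ℕ} (hM : Main N) (m : ℕ) (hm : 2 * m ≤ N) : 14 * e m 4 ≤ e m 2 * e m 2 := by
  have := dbl hM m hm 4
  rw [e_even, four_rec] at this
  norm_num at this
  linarith

lemma step3A (m : ℕ) (hm : 2 ≤ m) (hw : TPw m) (hM : Main (2 * m + 2)) :
    e (2 * m) 4 * e (2 * m + 1) 3 ≤
      (1 - 4 / 2 ^ 3 / (2 * m - 1 : ℝ)) * (e (2 * m + 1) 4 * e (2 * m) 3) := by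
  have hm' : (2 : ℝ) ≤ m := by exact_mod_cast hm
  have c1 := four_chain m hm hw
  have c2 := four_dbl hM m (by omega)
  have c3 : (m - 1 : ℝ) * e (m + 1) 2 = (m + 1) * e m 2 := by
    rw [(e_closed m).2.1, (e_closed (m + 1)).2.1]; push_cast; ring
  have c4 : e m 4 * (6 * m - 2) ≤ e m 2 * e m 2 * (m - 2) := by
    by_cases h4 : m < 4
    · rw [e_eq_zero m 4 h4, zero_mul]
      exact mul_nonneg (mul_self_nonneg _) (by linarith)
    · have : (4 : ℝ) ≤ m := by exact_mod_cast (by omega : 4 ≤ m)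
      have q1 : 14 * e m 4 * (m - 2) ≤ e m 2 * e m 2 * (m - 2) :=
        mul_le_mul_of_nonneg_right c2 (by linarith)
      nlinarith [mul_nonneg (e_nonneg m 4) (by linarith : (0 : ℝ) ≤ m - 4), e_nonneg m 4]
  have key : e (2 * m) 4 * ((2 * m + 1) * (2 * m - 1)) ≤
      (4 * m - 3) * ((m - 1) * e (2 * m + 1) 4) := by
    rw [e_even, e_odd, four_rec, four_rec]
    have q1 : 2 * m * e m 4 + (m + 1) * (e m 2 * e m 2) ≤
        (m - 1) * (e m 4 + e (m + 1) 4 + e m 2 * e (m + 1) 2) := by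
      have : (m - 1) * (e m 2 * e (m + 1) 2) = (m + 1) * (e m 2 * e m 2) := by
        linear_combination (e m 2) * c3
      linarith
    have q2 := mul_le_mul_of_nonneg_left q1 (by linarith : (0 : ℝ) ≤ 4 * m - 3)
    linarith
  rw [(e_closed (2 * m)).2.2, (e_closed (2 * m + 1)).2.2]
  push_cast
  have e1 : (1 - 4 / 2 ^ 3 / (2 * m - 1 : ℝ)) *
      (e (2 * m + 1) 4 * (2 * m * (2 * m - 1) * (2 * m - 2) / 6)) =
      (4 * m - 3) * ((m - 1) * e (2 * m + 1) 4) * (2 * m / 6) := by
    have : (2 * m - 1 : ℝ) ≠ 0 := by linarith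
    field_simp
    ring
  rw [e1]
  have := mul_le_mul_of_nonneg_right key (by positivity : (0 : ℝ) ≤ 2 * m / 6)
  linarith

lemma step3B (m : ℕ) (hm : 2 ≤ m) (hw : TPw m) (hM : Main (2 * m + 2)) :
    e (2 * m + 1) 4 * e (2 * m + 2) 3 ≤
      (1 - 4 / 2 ^ 3 / (2 * m : ℝ)) * (e (2 * m + 2) 4 * e (2 * m + 1) 3) := by
  have hm' : (2 : ℝ) ≤ m := by exact_mod_cast hm
  have c1 := four_chain m hm hw
  have c2 := four_dbl hM (m + 1) (by omega)
  have c3 : (m - 1 : ℝ) * e (m + 1) 2 = (m + 1) * e m 2 := by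
    rw [(e_closed m).2.1, (e_closed (m + 1)).2.1]; push_cast; ring
  have c4 : e (m + 1) 4 * (12 * m - 2) ≤ e (m + 1) 2 * e (m + 1) 2 * (2 * m + 1) := by
    have q1 : 14 * e (m + 1) 4 * (2 * m + 1) ≤ e (m + 1) 2 * e (m + 1) 2 * (2 * m + 1) :=
      mul_le_mul_of_nonneg_right c2 (by linarith)
    nlinarith [mul_nonneg (e_nonneg (m + 1) 4) (by linarith : (0 : ℝ) ≤ m), e_nonneg (m + 1) 4]
  have key : 8 * m * ((m + 1) * e (2 * m + 1) 4) ≤
      (4 * m - 1) * (2 * m - 1) * e (2 * m + 2) 4 := by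
    rw [e_even', e_odd, four_rec, four_rec]
    have q1 : (m + 1) * (e m 4 + e (m + 1) 4 + e m 2 * e (m + 1) 2) ≤
        2 * m * e (m + 1) 4 + (m - 1) * (e (m + 1) 2 * e (m + 1) 2) := by
      have : (m + 1) * (e m 2 * e (m + 1) 2) = (m - 1) * (e (m + 1) 2 * e (m + 1) 2) := by
        linear_combination (-e (m + 1) 2) * c3
      linarith
    have q2 := mul_le_mul_of_nonneg_left q1 (by linarith : (0 : ℝ) ≤ 8 * m)
    linarith
  rw [(e_closed (2 * m + 2)).2.2, (e_closed (2 * m + 1)).2.2]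
  push_cast
  have e1 : (1 - 4 / 2 ^ 3 / (2 * m : ℝ)) *
      (e (2 * m + 2) 4 * ((2 * m + 1) * (2 * m + 1 - 1) * (2 * m + 1 - 2) / 6)) =
      (4 * m - 1) * (2 * m - 1) * e (2 * m + 2) 4 * ((2 * m + 1) / 12) := by
    have : (m : ℝ) ≠ 0 := by linarith
    field_simp
    ring
  rw [e1]
  have := mul_le_mul_of_nonneg_right key (by positivity : (0 : ℝ) ≤ (2 * m + 1) / 12)
  linarith

lemma weaken {a c g d d' : ℝ} (hc : 0 ≤ c) (hg : 0 ≤ g) (hd : 0 < d) (hdd : d ≤ d')
    (h : a ≤ (1 - g / d) * c) : a ≤ (1 - g / d') * c := by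
  refine h.trans (mul_le_mul_of_nonneg_right ?_ hc)
  have := div_le_div_of_nonneg_left hg hd hdd
  linarith

theorem TPs_all (n : ℕ) : 2 ≤ n → TPs n := by
  induction n using Nat.strong_induction_on with
  | _ n ih =>
    intro hn k hk
    have hn' : (2 : ℝ) ≤ n := by exact_mod_cast hn
    by_cases hkn : n < k + 1
    · rw [e_eq_zero n _ hkn, zero_mul]
      refine mul_nonneg ?_ (mul_nonneg (e_nonneg _ _) (e_nonneg _ _))
      have := gam_le_one k n hk hn
      linarith
    by_cases hk2 : k = 2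
    · subst hk2
      rw [(e_closed n).2.1, (e_closed n).2.2, (e_closed (n + 1)).2.1, (e_closed (n + 1)).2.2]
      push_cast
      have : (n - 1 : ℝ) ≠ 0 := by linarith
      refine le_of_eq ?_
      field_simp
      ring
    have hw : ∀ i < n, TPw i := fun i hi => TPw_of i (ih i hi)
    have hM0 := main_of_TP n hw
    obtain ⟨m, hm⟩ := parity n
    have hm2 : 2 ≤ m := by omega
    have hm' : (2 : ℝ) ≤ m := by exact_mod_cast hm2
    have hM : Main (2 * m + 2) := fun a b hab => hM0 a b (by omega)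
    by_cases hk3 : k = 3
    · subst hk3
      rcases hm with rfl | rfl
      · have := step3A m hm2 (hw m (by omega)) hM
        push_cast
        exact this
      · have := step3B m hm2 (hw m (by omega)) hM
        push_cast
        rw [add_sub_cancel_right]
        exact this
    · rcases hm with rfl | rfl
      · have := stepA m k (by omega) (by omega) (ih m (by omega) hm2) hM
        push_cast
        exact weaken (mul_nonneg (e_nonneg _ _) (e_nonneg _ _)) (by positivity) (by linarith)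
          (by linarith) this
      · have := stepB m k (by omega) (by omega) (ih m (by omega) hm2) hM
        push_cast
        exact weaken (mul_nonneg (e_nonneg _ _) (e_nonneg _ _)) (by positivity) (by linarith)
          (by linarith) this

/-- The numerical form of the conjecture. -/
theorem main_num (a b k : ℕ) : Ff (e a) (e b) k ≤ e (a + b) k :=
  main_of_TP (a + b) (fun i _ => TPw_of i (TPs_all i)) a b (by omega) k

end Pool.Agent.Lib.MP_f2fe2b_co
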